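import Pool.Agent.Work.MP_27623f_ag.Defs

/-!
MP_27623f_ag / Cofinal (size M).  The ideals `I_κ = R ∩ (x_i^{κ_i+1})` are `m`-primary and
arbitrarily deep.

`primary_comap`, PROOF: `(x)` is finitely generated and contained in the radical of `powId x a`, so
`(x)^M ≤ powId x a` for some `M` (`Ideal.exists_pow_le_of_le_radical_of_fg`); `h.primary` gives
`(m^c) S ≤ (x)`, so `(m^(cM)) S ≤ powId x a` (`Ideal.map_pow`), `Ideal.map_le_iff_le_comap`.
`cofinal`, PROOF.  Fix `N`.  Let `𝔔 = (x) ⊂ S`, `𝔫 = (m^N) S`.  (1) `𝔫 ∩ R = m^N`: the degree zero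
component map `S → S_0 = R` is `R`-linear and is the identity on `R`, so it sends `(m^N) S` into
`m^N`.  (2) For `r ∈ R` with `algebraMap r ∈ 𝔔^M + 𝔫` for all `M`: Krull in the Noetherian ring
`S / 𝔫` (`Ideal.mem_iInf_smul_pow_eq_bot_iff` or `Ideal.iInf_pow_smul...`) gives `a ∈ 𝔔` with
`(1 - a) r ∈ 𝔫`.  `𝔔` is homogeneous, take degree zero components: `a_0 = algebraMap b ∈ 𝔔`,
`(1 - b) r ∈ m^N` by (1).  `b` is not a unit, since otherwise `1 ∈ 𝔔` and `v ∈ 𝔔`; so `1 - b` is a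
unit and `r ∈ m^N`.  (3) The ideals `J_M = R ∩ (𝔔^M + 𝔫)` decrease and contain `m^N`; `R / m^N` is
Artinian, so they are constant for `M ≥ M_0` and `J_{M_0} ≤ m^N` by (2).  (4) If `M_0 ≤ κ_i` for all
`i` then `powId x (κ+1) ≤ 𝔔^{M_0}`.
-/

set_option autoImplicit false

namespace Pool.Agent.FSig

variable {R : Type*} [CommRing R] [IsNoetherianRing R] [IsLocalRing R] {S : Type*} [CommRing S]
  [Algebra R S] {G : Type*} [AddCommGroup G] [DecidableEq G] {𝒜 : G → Submodule R S}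
  [GradedAlgebra 𝒜] {n : ℕ} {x : Fin n → S} {δ : Fin n → G} {v : S} {d : G}

theorem primary_comap (h : GorCover R 𝒜 x δ v d) (a : Fin n → ℕ) :
    ∃ N, IsLocalRing.maximalIdeal R ^ N ≤ (powId x a).comap (algebraMap R S) := by
  have hfg : (Ideal.span (Set.range x)).FG := by
    classical
    exact ⟨Finset.univ.image x, by simp⟩
  have hrad : Ideal.span (Set.range x) ≤ (powId x a).radical := by
    rw [Ideal.span_le]
    rintro _ ⟨i, rfl⟩
    exact ⟨a i, Ideal.subset_span ⟨i, rfl⟩⟩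
  obtain ⟨M, hM⟩ := Ideal.exists_pow_le_of_le_radical_of_fg hrad hfg
  obtain ⟨c, hc⟩ := h.primary
  refine ⟨c * M, ?_⟩
  rw [← Ideal.map_le_iff_le_comap, pow_mul, Ideal.map_pow]
  exact (Ideal.pow_right_mono hc M).trans hM

omit [IsNoetherianRing R] [IsLocalRing R] in
theorem proj_algebraMap (r : R) :
    GradedAlgebra.proj 𝒜 0 (algebraMap R S r) = algebraMap R S r := by
  rw [GradedAlgebra.proj_apply]
  exact DirectSum.decompose_of_mem_same 𝒜 (SetLike.algebraMap_mem_graded 𝒜 r)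

omit [IsNoetherianRing R] [IsLocalRing R] in
theorem proj_mul_alg (s : S) (r : R) :
    GradedAlgebra.proj 𝒜 0 (s * algebraMap R S r) =
      GradedAlgebra.proj 𝒜 0 s * algebraMap R S r := by
  rw [mul_comm s, ← Algebra.smul_def, map_smul, Algebra.smul_def, mul_comm]

omit [IsNoetherianRing R] in
theorem proj_map (h : GorCover R 𝒜 x δ v d) (I : Ideal R) {s : S}
    (hs : s ∈ I.map (algebraMap R S)) :
    ∃ r ∈ I, GradedAlgebra.proj 𝒜 0 s = algebraMap R S r := by
  have key : ∀ y ∈ I.map (algebraMap R S), ∀ s' : S,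
      ∃ r ∈ I, GradedAlgebra.proj 𝒜 0 (s' * y) = algebraMap R S r := by
    intro y hy
    refine Submodule.span_induction (p := fun y _ => ∀ s' : S,
      ∃ r ∈ I, GradedAlgebra.proj 𝒜 0 (s' * y) = algebraMap R S r) ?_ ?_ ?_ ?_ hy
    · rintro _ ⟨r0, hr0, rfl⟩ s'
      obtain ⟨r1, hr1⟩ := h.zero (GradedAlgebra.proj 𝒜 0 s') (by
        rw [GradedAlgebra.proj_apply]
        exact SetLike.coe_mem _)
      refine ⟨r1 * r0, I.mul_mem_left _ hr0, ?_⟩
      rw [proj_mul_alg, ← hr1, map_mul]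
    · intro s'
      exact ⟨0, I.zero_mem, by simp⟩
    · intro y z _ _ hy hz s'
      obtain ⟨r1, h1, e1⟩ := hy s'
      obtain ⟨r2, h2, e2⟩ := hz s'
      exact ⟨r1 + r2, I.add_mem h1 h2, by rw [mul_add, map_add, e1, e2, map_add]⟩
    · intro c y _ hy s'
      obtain ⟨r, hr, e⟩ := hy (s' * c)
      exact ⟨r, hr, by rw [smul_eq_mul, ← mul_assoc, e]⟩
  obtain ⟨r, hr, e⟩ := key s hs 1
  exact ⟨r, hr, by rw [← e, one_mul]⟩

omit [IsNoetherianRing R] in
theorem proj_span (h : GorCover R 𝒜 x δ v d) {s : S}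
    (hs : s ∈ Ideal.span (Set.range x)) :
    GradedAlgebra.proj 𝒜 0 s ∈ Ideal.span (Set.range x) := by
  have key : ∀ y ∈ Ideal.span (Set.range x), ∀ s' : S,
      GradedAlgebra.proj 𝒜 0 (s' * y) ∈ Ideal.span (Set.range x) := by
    intro y hy
    refine Submodule.span_induction (p := fun y _ => ∀ s' : S,
      GradedAlgebra.proj 𝒜 0 (s' * y) ∈ Ideal.span (Set.range x)) ?_ ?_ ?_ ?_ hy
    · rintro _ ⟨i, rfl⟩ s'
      have e := DirectSum.coe_decompose_mul_add_of_right_mem 𝒜 (i := - δ i) (a := s') (h.mem_x i)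
      rw [neg_add_cancel] at e
      rw [GradedAlgebra.proj_apply, e]
      exact Ideal.mul_mem_left _ _ (Ideal.subset_span ⟨i, rfl⟩)
    · intro s'
      simp
    · intro y z _ _ hy hz s'
      rw [mul_add, map_add]
      exact Ideal.add_mem _ (hy s') (hz s')
    · intro c y _ hy s'
      rw [smul_eq_mul, ← mul_assoc]
      exact hy (s' * c)
  have := key s hs 1
  rwa [one_mul] at this

/-- `R / m^N` is Artinian, in the form: a decreasing sequence of ideals containing `m^N` is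
stationary. -/
theorem chain_stable (N : ℕ) (J : ℕ → Ideal R) (hJ : Antitone J)
    (hN : ∀ k, IsLocalRing.maximalIdeal R ^ N ≤ J k) : ∃ M, ∀ k, M ≤ k → J M = J k := by
  classical
  set I := IsLocalRing.maximalIdeal R ^ N with hI
  by_cases htop : I = ⊤
  · refine ⟨0, fun k _ => ?_⟩
    have : ∀ k, J k = ⊤ := fun k => top_le_iff.mp (htop ▸ hN k)
    rw [this, this]
  have hnt : Nontrivial (R ⧸ I) := Ideal.Quotient.nontrivial_iff.mpr htop
  have hloc : IsLocalRing (R ⧸ I) :=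
    IsLocalRing.of_surjective' (Ideal.Quotient.mk I) Ideal.Quotient.mk_surjective
  have hmax : IsLocalRing.maximalIdeal (R ⧸ I) ≤
      (IsLocalRing.maximalIdeal R).map (Ideal.Quotient.mk I) := by
    intro y hy
    obtain ⟨z, rfl⟩ := Ideal.Quotient.mk_surjective y
    apply Ideal.mem_map_of_mem
    rw [IsLocalRing.mem_maximalIdeal, mem_nonunits_iff] at hy ⊢
    exact fun hz => hy (hz.map _)
  have hnil : IsNilpotent (IsLocalRing.maximalIdeal (R ⧸ I)) := by
    refine ⟨N, ?_⟩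
    rw [Ideal.zero_eq_bot, eq_bot_iff]
    refine (Ideal.pow_right_mono hmax N).trans ?_
    rw [← Ideal.map_pow, ← hI, Ideal.map_quotient_self]
  have hart : IsArtinianRing (R ⧸ I) :=
    (isArtinianRing_iff_isNilpotent_maximalIdeal (R ⧸ I)).mpr hnil
  let f : ℕ →o (Submodule (R ⧸ I) (R ⧸ I))ᵒᵈ :=
    ⟨fun k => OrderDual.toDual ((J k).map (Ideal.Quotient.mk I)), fun a b hab =>
      OrderDual.toDual_le_toDual.mpr (Ideal.map_mono (hJ hab))⟩
  obtain ⟨M, hM⟩ := IsArtinian.monotone_stabilizes f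
  refine ⟨M, fun k hk => ?_⟩
  have e : (J M).map (Ideal.Quotient.mk I) = (J k).map (Ideal.Quotient.mk I) := hM k hk
  have hc : ∀ k, ((J k).map (Ideal.Quotient.mk I)).comap (Ideal.Quotient.mk I) = J k := by
    intro k
    rw [Ideal.comap_map_of_surjective _ Ideal.Quotient.mk_surjective, ← RingHom.ker_eq_comap_bot,
      Ideal.mk_ker]
    exact sup_eq_left.mpr (hN k)
  rw [← hc M, ← hc k, e]

theorem cofinal [IsNoetherianRing S] (h : GorCover R 𝒜 x δ v d) (N : ℕ) :
    ∃ M : ℕ, ∀ κ : Fin n → ℕ, (∀ i, M ≤ κ i) →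
      (powId x (fun i => κ i + 1)).comap (algebraMap R S) ≤ IsLocalRing.maximalIdeal R ^ N := by
  classical
  set Q : Ideal S := Ideal.span (Set.range x) with hQ
  set 𝔫 : Ideal S := (IsLocalRing.maximalIdeal R ^ N).map (algebraMap R S) with h𝔫
  let J : ℕ → Ideal R := fun k => (Q ^ k ⊔ 𝔫).comap (algebraMap R S)
  have hJ : Antitone J := fun a b hab =>
    Ideal.comap_mono (sup_le_sup_right (Ideal.pow_le_pow_right hab) _)
  have hNJ : ∀ k, IsLocalRing.maximalIdeal R ^ N ≤ J k := fun k => by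
    rw [← Ideal.map_le_iff_le_comap]
    exact le_sup_right
  have step2 : ∀ r : R, (∀ k, r ∈ J k) → r ∈ IsLocalRing.maximalIdeal R ^ N := by
    intro r hr
    have hmem : (Ideal.Quotient.mk 𝔫 (algebraMap R S r)) ∈
        (⨅ i : ℕ, Q ^ i • (⊤ : Submodule S (S ⧸ 𝔫))) := by
      rw [Submodule.mem_iInf]
      intro k
      obtain ⟨q, hq, w, hw, e⟩ := Submodule.mem_sup.mp (hr k)
      have e2 : Ideal.Quotient.mk 𝔫 (algebraMap R S r) = q • (1 : S ⧸ 𝔫) := by
        rw [← e, map_add, Ideal.Quotient.eq_zero_iff_mem.mpr hw, add_zero, Algebra.smul_def,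
          mul_one]
        rfl
      rw [e2]
      exact Submodule.smul_mem_smul hq Submodule.mem_top
    obtain ⟨⟨a, ha⟩, e⟩ := (Ideal.mem_iInf_smul_pow_eq_bot_iff Q _).mp hmem
    have e3 : algebraMap R S r - a * algebraMap R S r ∈ 𝔫 := by
      rw [← Ideal.Quotient.eq_zero_iff_mem, map_sub, map_mul, sub_eq_zero]
      have e' : a • Ideal.Quotient.mk 𝔫 (algebraMap R S r) =
        Ideal.Quotient.mk 𝔫 (algebraMap R S r) := e
      rw [Algebra.smul_def] at e'
      exact e'.symm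
    obtain ⟨r2, hr2, e4⟩ := proj_map h _ e3
    rw [map_sub, proj_algebraMap, proj_mul_alg] at e4
    obtain ⟨b, hb⟩ := h.zero (GradedAlgebra.proj 𝒜 0 a) (by
      rw [GradedAlgebra.proj_apply]
      exact SetLike.coe_mem _)
    have hbQ : algebraMap R S b ∈ Q := by
      rw [hb]
      exact proj_span h ha
    have hbm : b ∈ IsLocalRing.maximalIdeal R := by
      rw [IsLocalRing.mem_maximalIdeal, mem_nonunits_iff]
      intro hu
      have : Q = ⊤ := Ideal.eq_top_of_isUnit_mem _ hbQ (hu.map (algebraMap R S))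
      apply h.v_not_mem
      rw [← hQ, this]
      exact Submodule.mem_top
    have hunit : IsUnit (1 - b) := by
      by_contra hcon
      have h1 : (1 - b) ∈ IsLocalRing.maximalIdeal R := hcon
      have h2 : (1 : R) ∈ IsLocalRing.maximalIdeal R := by
        have := Ideal.add_mem _ h1 hbm
        rwa [sub_add_cancel] at this
      exact (Ideal.ne_top_iff_one _).mp (IsLocalRing.maximalIdeal.isMaximal R).ne_top h2
    rw [← hb, ← map_mul, ← map_sub] at e4
    have e5 : r - b * r = r2 := h.inj e4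
    have e6 : (1 - b) * r ∈ IsLocalRing.maximalIdeal R ^ N := by
      have : (1 - b) * r = r2 := by rw [← e5]; ring
      rw [this]
      exact hr2
    exact (Ideal.unit_mul_mem_iff_mem _ hunit).mp e6
  obtain ⟨M, hM⟩ := chain_stable N J hJ hNJ
  refine ⟨M, fun κ hκ => ?_⟩
  have h1 : powId x (fun i => κ i + 1) ≤ Q ^ M := by
    rw [powId, Ideal.span_le]
    rintro _ ⟨i, rfl⟩
    have hxi : x i ∈ Q := Ideal.subset_span ⟨i, rfl⟩
    exact Ideal.pow_le_pow_right ((hκ i).trans (Nat.le_succ _)) (Ideal.pow_mem_pow hxi _)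
  intro r hr
  apply step2
  have h2 : r ∈ J M := Ideal.mem_sup_left (h1 hr)
  intro k
  rcases le_total M k with hk | hk
  · rw [← hM k hk]
    exact h2
  · exact hJ hk h2

end Pool.Agent.FSig
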