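import Pool.Agent.Work.MP_27623f_ag.Defs

/-!
MP_27623f_ag / ColonLen (size S).

`length_colon`: the sequence `0 → R / (A : w) → R / A → R / (A + (w)) → 0`, first map
multiplication by `w`, is exact; `Module.length_eq_add_of_exact`.
`length_ne_top`: `R / A` is Artinian and Noetherian when `m^n ≤ A`.
-/

set_option autoImplicit false

namespace Pool.Agent.FSig

universe u

theorem length_colon {R : Type u} [CommRing R] (A : Ideal R) (w : R) :
    Module.length R (R ⧸ A) =
      Module.length R (R ⧸ colonEl A w) + Module.length R (R ⧸ (A ⊔ Ideal.span {w})) := by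
  have h1 : colonEl A w ≤ Submodule.comap (LinearMap.mulRight R w) A := fun r hr => hr
  have h2 : A ≤ Submodule.comap (LinearMap.id : R →ₗ[R] R) (A ⊔ Ideal.span {w}) :=
    fun r hr => Ideal.mem_sup_left hr
  let f : (R ⧸ colonEl A w) →ₗ[R] (R ⧸ A) := Submodule.mapQ _ _ (LinearMap.mulRight R w) h1
  let g : (R ⧸ A) →ₗ[R] (R ⧸ (A ⊔ Ideal.span {w})) := Submodule.mapQ _ _ LinearMap.id h2
  refine Module.length_eq_add_of_exact f g ?_ ?_ ?_
  · rw [injective_iff_map_eq_zero]
    intro y hy
    obtain ⟨r, rfl⟩ := Submodule.Quotient.mk_surjective _ y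
    have h3 : r * w ∈ A := (Submodule.Quotient.mk_eq_zero A).1 hy
    exact (Submodule.Quotient.mk_eq_zero _).2 h3
  · intro y
    obtain ⟨r, rfl⟩ := Submodule.Quotient.mk_surjective _ y
    exact ⟨Submodule.Quotient.mk r, rfl⟩
  · intro y
    obtain ⟨r, rfl⟩ := Submodule.Quotient.mk_surjective _ y
    constructor
    · intro hy
      have h3 : r ∈ A ⊔ Ideal.span {w} := (Submodule.Quotient.mk_eq_zero _).1 hy
      obtain ⟨b, hb, c, hc, hbc⟩ := Submodule.mem_sup.1 h3
      obtain ⟨e, he⟩ := Ideal.mem_span_singleton'.1 hc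
      refine ⟨Submodule.Quotient.mk e, ?_⟩
      show (Submodule.Quotient.mk (e * w) : R ⧸ A) = Submodule.Quotient.mk r
      rw [Submodule.Quotient.eq, he, ← hbc]
      have h4 : c - (b + c) = -b := by ring
      rw [h4]
      exact A.neg_mem hb
    · rintro ⟨x, hx⟩
      obtain ⟨e, rfl⟩ := Submodule.Quotient.mk_surjective _ x
      have h3 : (Submodule.Quotient.mk (e * w) : R ⧸ A) = Submodule.Quotient.mk r := hx
      rw [Submodule.Quotient.eq] at h3
      refine (Submodule.Quotient.mk_eq_zero _).2 ?_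
      show r ∈ A ⊔ Ideal.span {w}
      have h4 : r = e * w - (e * w - r) := by ring
      rw [h4]
      exact Ideal.sub_mem _ (Ideal.mem_sup_right (Ideal.mem_span_singleton'.2 ⟨e, rfl⟩))
        (Ideal.mem_sup_left h3)

theorem length_ne_top {R : Type u} [CommRing R] [IsNoetherianRing R] [IsLocalRing R]
    (A : Ideal R) (hA : ∃ n, IsLocalRing.maximalIdeal R ^ n ≤ A) :
    Module.length R (R ⧸ A) ≠ ⊤ := by
  obtain ⟨n, hn⟩ := hA
  by_cases htop : A = ⊤
  · subst htop
    have : Subsingleton (R ⧸ (⊤ : Ideal R)) := Submodule.Quotient.subsingleton_iff.2 rfl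
    have : Module.length R (R ⧸ (⊤ : Ideal R)) = 0 := Module.length_eq_zero
    rw [this]
    exact ENat.zero_ne_top
  have hnt : Nontrivial (R ⧸ A) := Ideal.Quotient.nontrivial_iff.2 htop
  have hloc : IsLocalRing (R ⧸ A) :=
    IsLocalRing.of_surjective' (Ideal.Quotient.mk A) Ideal.Quotient.mk_surjective
  have hart : IsArtinianRing (R ⧸ A) := by
    rw [isArtinianRing_iff_isNilpotent_maximalIdeal]
    refine ⟨n, ?_⟩
    have h1 : IsLocalRing.maximalIdeal (R ⧸ A) ≤
        (IsLocalRing.maximalIdeal R).map (Ideal.Quotient.mk A) := by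
      intro y hy
      obtain ⟨r, rfl⟩ := Ideal.Quotient.mk_surjective y
      refine Ideal.mem_map_of_mem _ ?_
      rw [IsLocalRing.mem_maximalIdeal, mem_nonunits_iff] at hy ⊢
      exact fun hu => hy (hu.map _)
    rw [Submodule.zero_eq_bot, eq_bot_iff]
    refine (Ideal.pow_right_mono h1 n).trans ?_
    rw [← Ideal.map_pow]
    refine (Ideal.map_mono hn).trans ?_
    rw [Ideal.map_quotient_self]
  have h2 : IsArtinian R (R ⧸ A) :=
    isArtinian_of_surjective_algebraMap (Ideal.Quotient.mk_surjective (I := A))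
  have h3 : IsNoetherian R (R ⧸ A) := isNoetherian_quotient A
  exact Module.length_ne_top

end Pool.Agent.FSig
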