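import Pool.Agent.Work.MP_27623f_ag.Defs

/-!
MP_27623f_ag / ColonPow (size M).  Colon properties; uses `reg_pow` of file RegPow (prove it as a
consequence of the hypothesis `hP` below, which is exactly the conclusion of `reg_pow`).

`colon_one` (P2), PROOF: `x_i^c s = x_i^{a_i} w + k`, `k ∈ (x_j^{a_j} : j ≠ i)`, so
`x_i^c (s - x_i^{a_i - c} w) ∈ (x_j^{a_j} : j ≠ i)`, apply `hP` with `T = univ - i`.
`colon_prod` (P3), PROOF: remove one index after the other by `colon_one`: for a finset `T` of
indices, `s * ∏_{i ∈ T} x_i^{κ_i} ∈ powId x (b + κ on T, b off T)` implies `s ∈ powId x b`, by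
`Finset.induction`.
`colon_max` (P4), PROOF: by induction on the finset `T`: `s ∈ powId x a + (∏_{i ∈ T} x_i^{a_i - 1})`.
Step `T → T + j`: `s = q + (∏_{i ∈ T} x_i^{a_i - 1}) w`, and `x_j s ∈ powId x a` gives
`(∏_{i ∈ T} x_i^{a_i - 1}) x_j w ∈ powId x a`, so by `colon_one` for all `i ∈ T` (with `c = a_i - 1`)
`x_j w ∈ powId x a'`, `a'_i = 1` on `T`, `a'_l = a_l` off `T`, and again by `colon_one` (index `j`,
`c = 1`) `w ∈ powId x a''` with `a''_j = a_j - 1`.  Multiply by `∏_{i ∈ T} x_i^{a_i - 1}`: every
generator except `x_j^{a_j - 1}` goes to `powId x a`.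
-/

set_option autoImplicit false

namespace Pool.Agent.FSig

variable {S : Type*} [CommRing S] {n : ℕ}

private theorem powId_eq (x : Fin n → S) (a : Fin n → ℕ) (i : Fin n) :
    powId x a = Ideal.span (insert (x i ^ a i)
      ((fun j => x j ^ a j) '' ((Finset.univ.erase i : Finset (Fin n)) : Set (Fin n)))) := by
  unfold powId
  congr 1
  ext y
  simp only [Set.mem_range, Set.mem_insert_iff, Set.mem_image, Finset.coe_erase, Finset.coe_univ,
    Set.mem_sdiff, Set.mem_univ, true_and, Set.mem_singleton_iff]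
  constructor
  · rintro ⟨j, rfl⟩
    by_cases h : j = i
    · left
      rw [h]
    · right
      exact ⟨j, h, rfl⟩
  · rintro (rfl | ⟨j, -, rfl⟩)
    · exact ⟨i, rfl⟩
    · exact ⟨j, rfl⟩

private theorem pow_mem_powId (x : Fin n → S) (a : Fin n → ℕ) (i : Fin n) (c : ℕ) (h : a i ≤ c) :
    x i ^ c ∈ powId x a := by
  obtain ⟨d, rfl⟩ := Nat.exists_eq_add_of_le h
  rw [pow_add]
  exact Ideal.mul_mem_right _ _ (Ideal.subset_span ⟨i, rfl⟩)

theorem colon_one (x : Fin n → S)
    (hP : ∀ (a : Fin n → ℕ) (i : Fin n) (T : Finset (Fin n)), i ∉ T → ∀ (c : ℕ) (s : S),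
      x i ^ c * s ∈ Ideal.span ((fun j => x j ^ a j) '' (T : Set (Fin n))) →
      s ∈ Ideal.span ((fun j => x j ^ a j) '' (T : Set (Fin n))))
    (a : Fin n → ℕ) (i : Fin n) (c : ℕ) (hc : c ≤ a i) (s : S)
    (h : x i ^ c * s ∈ powId x a) : s ∈ powId x (Function.update a i (a i - c)) := by
  rw [powId_eq x a i, Ideal.mem_span_insert] at h
  obtain ⟨w, k, hk, he⟩ := h
  have h1 : x i ^ c * (s - w * x i ^ (a i - c)) = k := by
    have h2 : x i ^ a i = x i ^ c * x i ^ (a i - c) := by
      rw [← pow_add]
      congr 1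
      omega
    rw [mul_sub, he, h2]
    ring
  have h3 := hP a i (Finset.univ.erase i) (Finset.notMem_erase i _) c (s - w * x i ^ (a i - c))
    (by rw [h1]; exact hk)
  rw [powId_eq x _ i, Ideal.mem_span_insert]
  refine ⟨w, s - w * x i ^ (a i - c), ?_, ?_⟩
  · have h4 : (fun j => x j ^ (Function.update a i (a i - c)) j) ''
        ((Finset.univ.erase i : Finset (Fin n)) : Set (Fin n)) =
        (fun j => x j ^ a j) '' ((Finset.univ.erase i : Finset (Fin n)) : Set (Fin n)) := by
      apply Set.image_congr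
      intro j hj
      have hji : j ≠ i := Finset.ne_of_mem_erase (Finset.mem_coe.mp hj)
      simp only [Function.update_of_ne hji]
    rw [h4]
    exact h3
  · rw [Function.update_self]
    ring

private theorem colon_T (x : Fin n → S)
    (hP : ∀ (a : Fin n → ℕ) (i : Fin n) (T : Finset (Fin n)), i ∉ T → ∀ (c : ℕ) (s : S),
      x i ^ c * s ∈ Ideal.span ((fun j => x j ^ a j) '' (T : Set (Fin n))) →
      s ∈ Ideal.span ((fun j => x j ^ a j) '' (T : Set (Fin n))))
    (κ b : Fin n → ℕ) (T : Finset (Fin n)) : ∀ s : S,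
    s * ∏ i ∈ T, x i ^ κ i ∈ powId x (fun i => if i ∈ T then κ i + b i else b i) →
    s ∈ powId x b := by
  induction T using Finset.induction_on with
  | empty =>
    intro s h
    simpa using h
  | insert i T hi ih =>
    intro s h
    apply ih
    rw [Finset.prod_insert hi] at h
    have h1 : x i ^ κ i * (s * ∏ j ∈ T, x j ^ κ j) ∈
        powId x (fun j => if j ∈ insert i T then κ j + b j else b j) := by
      have e : x i ^ κ i * (s * ∏ j ∈ T, x j ^ κ j) = s * (x i ^ κ i * ∏ j ∈ T, x j ^ κ j) := by ring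
      rw [e]
      exact h
    have h2 := colon_one x hP _ i (κ i) (by
      simp only [Finset.mem_insert_self, if_true]
      omega) _ h1
    have h3 : Function.update (fun j => if j ∈ insert i T then κ j + b j else b j) i
        ((if i ∈ insert i T then κ i + b i else b i) - κ i) =
        fun j => if j ∈ T then κ j + b j else b j := by
      funext j
      by_cases hj : j = i
      · subst hj
        rw [Function.update_self, if_pos (Finset.mem_insert_self _ _), if_neg hi]
        omega
      · rw [Function.update_of_ne hj]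
        simp [Finset.mem_insert, hj]
    rw [h3] at h2
    exact h2

theorem colon_prod (x : Fin n → S)
    (hP : ∀ (a : Fin n → ℕ) (i : Fin n) (T : Finset (Fin n)), i ∉ T → ∀ (c : ℕ) (s : S),
      x i ^ c * s ∈ Ideal.span ((fun j => x j ^ a j) '' (T : Set (Fin n))) →
      s ∈ Ideal.span ((fun j => x j ^ a j) '' (T : Set (Fin n))))
    (κ b : Fin n → ℕ) (s : S) (h : s * ∏ i, x i ^ κ i ∈ powId x (fun i => κ i + b i)) :
    s ∈ powId x b := by
  apply colon_T x hP κ b Finset.univ s
  simpa using h

theorem colon_max (x : Fin n → S)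
    (hP : ∀ (a : Fin n → ℕ) (i : Fin n) (T : Finset (Fin n)), i ∉ T → ∀ (c : ℕ) (s : S),
      x i ^ c * s ∈ Ideal.span ((fun j => x j ^ a j) '' (T : Set (Fin n))) →
      s ∈ Ideal.span ((fun j => x j ^ a j) '' (T : Set (Fin n))))
    (κ : Fin n → ℕ) (s : S) (h : ∀ i, x i * s ∈ powId x (fun j => κ j + 1)) :
    ∃ w : S, s - w * ∏ i, x i ^ κ i ∈ powId x (fun j => κ j + 1) := by
  have key : ∀ T : Finset (Fin n), ∃ w : S, s - w * ∏ i ∈ T, x i ^ κ i ∈ powId x (fun j => κ j + 1) := by
    intro T
    induction T using Finset.induction_on with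
    | empty => exact ⟨s, by simp⟩
    | insert j T hj ih =>
      obtain ⟨w, hw⟩ := ih
      set I := powId x (fun j => κ j + 1) with hI
      -- `x_j w ∏_T ∈ I`
      have h1 : (x j * w) * ∏ i ∈ T, x i ^ κ i ∈ I := by
        have e : (x j * w) * ∏ i ∈ T, x i ^ κ i = x j * s - x j * (s - w * ∏ i ∈ T, x i ^ κ i) := by
          ring
        rw [e]
        exact I.sub_mem (h j) (I.mul_mem_left _ hw)
      have h2 : x j * w ∈ powId x (fun l => if l ∈ T then 1 else κ l + 1) := by
        apply colon_T x hP κ _ T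
        have e : (fun i => if i ∈ T then κ i + (if i ∈ T then 1 else κ i + 1) else
            (if i ∈ T then 1 else κ i + 1)) = fun j => κ j + 1 := by
          funext i
          by_cases hi : i ∈ T
          · simp only [if_pos hi]
          · simp only [if_neg hi]
        rw [e]
        exact h1
      have h3 := colon_one x hP (fun l => if l ∈ T then 1 else κ l + 1) j 1 (by
        show 1 ≤ (if j ∈ T then 1 else κ j + 1)
        rw [if_neg hj]
        omega) w (by rw [pow_one]; exact h2)
      rw [powId_eq x _ j, Ideal.mem_span_insert] at h3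
      obtain ⟨u, k, hk, he⟩ := h3
      rw [Function.update_self, if_neg hj, Nat.add_sub_cancel] at he
      have h4 : k * ∏ i ∈ T, x i ^ κ i ∈ I := by
        refine Submodule.span_induction (p := fun k _ => k * ∏ i ∈ T, x i ^ κ i ∈ I) ?_ ?_ ?_ ?_ hk
        · rintro _ ⟨l, hl, rfl⟩
          have hlj : l ≠ j := Finset.ne_of_mem_erase (Finset.mem_coe.mp hl)
          simp only [Function.update_of_ne hlj]
          by_cases hlT : l ∈ T
          · rw [if_pos hlT, pow_one, ← Finset.mul_prod_erase T _ hlT, ← mul_assoc, ← pow_succ']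
            exact I.mul_mem_right _ (pow_mem_powId x _ l _ le_rfl)
          · rw [if_neg hlT]
            exact I.mul_mem_right _ (pow_mem_powId x _ l _ le_rfl)
        · rw [zero_mul]
          exact I.zero_mem
        · intro a b _ _ ha hb
          rw [add_mul]
          exact I.add_mem ha hb
        · intro a b _ hb
          rw [smul_eq_mul, mul_assoc]
          exact I.mul_mem_left _ hb
      refine ⟨u, ?_⟩
      rw [Finset.prod_insert hj]
      have e : s - u * (x j ^ κ j * ∏ i ∈ T, x i ^ κ i) =
          (s - w * ∏ i ∈ T, x i ^ κ i) + k * ∏ i ∈ T, x i ^ κ i := by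
        rw [he]
        ring
      rw [e]
      exact I.add_mem hw h4
  exact key Finset.univ

end Pool.Agent.FSig
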