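import Pool.Agent.Work.MP_27623f_ag.Defs

/-!
MP_27623f_ag / FreeRk (size M-L).  The free rank of `M` is the length of `M / trSub R M`.

PROOF.  `m M ≤ T := trSub R M`, so `M / T` is a finite dimensional vector space over `k = R / m`, of
dimension `a` say = its length over `R`.
(≤) If `π ∘ i = id` on `R^b`, the classes of `i(e_1), ..., i(e_b)` are linearly independent over `k`
in `M / T`: if `x = ∑ c_j i(e_j) ∈ T` then `c_l = (π x)_l ∈ m` for all `l`.  So `b ≤ a`.
(≥) Choose `x_1, ..., x_a ∈ M` lifting a basis of `M / T`.  The functions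
`f_j : Hom(M, R) → k, φ ↦ φ(x_j) mod m`, `j = 1..a`, are linearly independent over `k` (a relation
`∑ c_j f_j = 0` means `∑ c_j x_j ∈ T`), hence there are `φ_1, ..., φ_a` with
`det (φ_l(x_j) mod m) ≠ 0`, i.e. `det (φ_l(x_j))` is a unit of `R`.  Put `i(e_j) = x_j`,
`π = A^(-1) ∘ (φ_1, ..., φ_a)` with `A = (φ_l(x_j))`.
(Alternative for (≥): choose `φ_l` one after the other: the image of `Hom(M, R)` in `Hom_k(M/T, k)`
is a `k`-subspace with zero common kernel, so it is everything; take `φ_l` dual to the basis modulo
`m`.  Then `A` is the identity modulo `m`.)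
The set in the definition of `freeRank` is then exactly bounded by `a` and contains `a`.
-/

set_option autoImplicit false

namespace Pool.Agent.FSig

universe u

private theorem fr_torsion {R : Type u} [CommRing R] [IsLocalRing R] {M : Type u} [AddCommGroup M] [Module R M] :
    Module.IsTorsionBySet R (M ⧸ trSub R M) (IsLocalRing.maximalIdeal R : Set R) := by
  rintro y ⟨r, hr⟩
  obtain ⟨x, rfl⟩ := Submodule.Quotient.mk_surjective _ y
  change r • (Submodule.Quotient.mk x : M ⧸ trSub R M) = 0
  rw [← Submodule.Quotient.mk_smul, Submodule.Quotient.mk_eq_zero, mem_trSub]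
  intro φ
  rw [map_smul, smul_eq_mul]
  exact Ideal.mul_mem_right _ _ hr

theorem freeRank_eq_length {R : Type u} [CommRing R] [IsNoetherianRing R] [IsLocalRing R]
    {M : Type u} [AddCommGroup M] [Module R M] [Module.Finite R M] :
    ((freeRank R M : ℕ) : ℕ∞) = Module.length R (M ⧸ trSub R M) :=
  by
  classical
  set m := IsLocalRing.maximalIdeal R with hm
  set T := trSub R M with hT
  let N := M ⧸ T
  let _ : Field (R ⧸ m) := Ideal.Quotient.field m
  let _ : Module (R ⧸ m) N := (fr_torsion (R := R) (M := M)).module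
  have : IsScalarTower R (R ⧸ m) N := by
    constructor
    intro r s y
    obtain ⟨s, rfl⟩ := Ideal.Quotient.mk_surjective s
    obtain ⟨y, rfl⟩ := Submodule.Quotient.mk_surjective _ y
    have h1 : r • (Ideal.Quotient.mk m s) = Ideal.Quotient.mk m (r * s) := by
      rw [← Ideal.Quotient.mk_eq_mk, ← Ideal.Quotient.mk_eq_mk, ← Submodule.Quotient.mk_smul, smul_eq_mul]
    rw [h1]
    exact mul_smul r s (Submodule.Quotient.mk y : M ⧸ T)
  have hsmul : ∀ (r : R) (y : N), (Ideal.Quotient.mk m r) • y = r • y := fun r y => rfl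
  have : Module.Finite (R ⧸ m) N := Module.Finite.of_restrictScalars_finite R (R ⧸ m) N
  have hlen : Module.length R (M ⧸ T) = Module.finrank (R ⧸ m) N := by
    have h1 : Module.length R N = Module.length (R ⧸ m) N :=
      Module.length_eq_of_surjective (R := R ⧸ m) (S := R) (M := N) Ideal.Quotient.mk_surjective
    rw [← Module.length_eq_finrank]
    exact h1
  rw [hlen]
  set a := Module.finrank (R ⧸ m) N with ha
  -- upper bound
  have hub : ∀ b : ℕ, (∃ (i : (Fin b → R) →ₗ[R] M) (π : M →ₗ[R] (Fin b → R)), π ∘ₗ i = LinearMap.id) → b ≤ a := by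
    rintro b ⟨i, π, hπ⟩
    have hli : LinearIndependent (R ⧸ m) (fun j : Fin b => (Submodule.Quotient.mk (i (Pi.single j 1)) : N)) := by
      rw [Fintype.linearIndependent_iff]
      intro g hg l
      choose c hc using fun j => Ideal.Quotient.mk_surjective (I := m) (g j)
      have h1 : (Submodule.Quotient.mk (i (∑ j, c j • Pi.single j (1 : R))) : N) = 0 := by
        rw [map_sum, ← hg]
        have : ∀ s : Finset (Fin b), (Submodule.Quotient.mk (∑ j ∈ s, i (c j • Pi.single j (1 : R))) : N) =
            ∑ j ∈ s, g j • (Submodule.Quotient.mk (i (Pi.single j 1)) : N) := by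
          intro s
          rw [← Submodule.mkQ_apply, map_sum]
          refine Finset.sum_congr rfl fun j _ => ?_
          rw [← hc j, hsmul, map_smul, map_smul, Submodule.mkQ_apply]
        exact this Finset.univ
      rw [Submodule.Quotient.mk_eq_zero, mem_trSub] at h1
      have h2 := h1 ((LinearMap.proj l) ∘ₗ π)
      have h3 : π (i (∑ j, c j • Pi.single j (1 : R))) = ∑ j, c j • Pi.single j (1 : R) := by
        rw [← LinearMap.comp_apply, hπ, LinearMap.id_apply]
      rw [LinearMap.comp_apply, h3, LinearMap.proj_apply, Finset.sum_apply] at h2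
      simp only [Pi.smul_apply, smul_eq_mul] at h2
      rw [Finset.sum_eq_single l] at h2
      · rw [Pi.single_eq_same, mul_one] at h2
        rw [← hc l]
        exact Ideal.Quotient.eq_zero_iff_mem.2 h2
      · intro j _ hj
        rw [Pi.single_eq_of_ne (Ne.symm hj), mul_zero]
      · intro h; exact absurd (Finset.mem_univ l) h
    have := hli.fintype_card_le_finrank
    rwa [Fintype.card_fin] at this
  -- attained
  have hmem : ∃ (i : (Fin a → R) →ₗ[R] M) (π : M →ₗ[R] (Fin a → R)), π ∘ₗ i = LinearMap.id := by
    -- linear forms of N coming from M → R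
    have hker : ∀ φ : M →ₗ[R] R, T ≤ LinearMap.ker ((Ideal.Quotient.mkₐ R m).toLinearMap ∘ₗ φ) := by
      intro φ x hx
      rw [LinearMap.mem_ker, LinearMap.comp_apply]
      exact Ideal.Quotient.eq_zero_iff_mem.2 ((mem_trSub.1 hx) φ)
    let bar : (M →ₗ[R] R) → (N →ₗ[R ⧸ m] (R ⧸ m)) := fun φ =>
      { toFun := T.liftQ _ (hker φ)
        map_add' := map_add _
        map_smul' := by
          intro r y
          obtain ⟨r, rfl⟩ := Ideal.Quotient.mk_surjective r
          rw [hsmul, map_smul, RingHom.id_apply]
          rw [Algebra.smul_def]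
          rfl }
    have hbar : ∀ φ x, bar φ (Submodule.Quotient.mk x) = Ideal.Quotient.mk m (φ x) := fun φ x => rfl
    let W : Submodule (R ⧸ m) (Module.Dual (R ⧸ m) N) :=
      { carrier := Set.range bar
        add_mem' := by
          rintro _ _ ⟨φ, rfl⟩ ⟨ψ, rfl⟩
          refine ⟨φ + ψ, LinearMap.ext fun y => ?_⟩
          obtain ⟨y, rfl⟩ := Submodule.Quotient.mk_surjective _ y
          rw [LinearMap.add_apply, hbar, hbar, hbar, LinearMap.add_apply, map_add]
        zero_mem' := by
          refine ⟨0, LinearMap.ext fun y => ?_⟩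
          obtain ⟨y, rfl⟩ := Submodule.Quotient.mk_surjective _ y
          rw [hbar, LinearMap.zero_apply, LinearMap.zero_apply, map_zero]
        smul_mem' := by
          rintro c _ ⟨φ, rfl⟩
          obtain ⟨c, rfl⟩ := Ideal.Quotient.mk_surjective c
          refine ⟨c • φ, LinearMap.ext fun y => ?_⟩
          obtain ⟨y, rfl⟩ := Submodule.Quotient.mk_surjective _ y
          rw [LinearMap.smul_apply, hbar, hbar, LinearMap.smul_apply, smul_eq_mul, smul_eq_mul, map_mul] }
    have hco : W.dualCoannihilator = ⊥ := by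
      rw [eq_bot_iff]
      intro y hy
      obtain ⟨x, rfl⟩ := Submodule.Quotient.mk_surjective _ y
      rw [Submodule.mem_dualCoannihilator] at hy
      rw [Submodule.mem_bot, Submodule.Quotient.mk_eq_zero, mem_trSub]
      intro φ
      have := hy (bar φ) ⟨φ, rfl⟩
      rw [hbar] at this
      exact Ideal.Quotient.eq_zero_iff_mem.1 this
    have hW : W = ⊤ := by
      apply Submodule.eq_top_of_finrank_eq
      have h1 := Subspace.finrank_add_finrank_dualCoannihilator_eq (K := R ⧸ m) (V := N) W
      rw [hco, finrank_bot, add_zero] at h1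
      rw [h1, Subspace.dual_finrank_eq]
    let B := Module.finBasis (R ⧸ m) N
    choose x hx using fun j : Fin a => Submodule.Quotient.mk_surjective T (B j)
    have hφ : ∀ l : Fin a, ∃ φ : M →ₗ[R] R, bar φ = B.coord l := by
      intro l
      have : B.coord l ∈ W := by rw [hW]; exact Submodule.mem_top
      exact this
    choose φ hφ using hφ
    obtain ⟨A, hAd⟩ : ∃ A : Matrix (Fin a) (Fin a) R, ∀ l j, A l j = φ l (x j) :=
      ⟨Matrix.of fun l j => φ l (x j), fun l j => rfl⟩
    have hA : A.map (Ideal.Quotient.mk m) = 1 := by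
      ext l j
      rw [Matrix.map_apply, hAd, ← hbar, hφ, hx, Module.Basis.coord_apply, Module.Basis.repr_self,
        Matrix.one_apply, Finsupp.single_apply]
      by_cases h : l = j
      · subst h; simp
      · rw [if_neg h, if_neg (Ne.symm h)]
    have hdet : IsUnit A.det := by
      have h1 : Ideal.Quotient.mk m A.det = 1 := by
        rw [RingHom.map_det, RingHom.mapMatrix_apply, hA, Matrix.det_one]
      by_contra h2
      have h3 : A.det ∈ m := (IsLocalRing.mem_maximalIdeal _).2 h2
      rw [Ideal.Quotient.eq_zero_iff_mem.2 h3] at h1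
      exact zero_ne_one h1
    refine ⟨Fintype.linearCombination R x, A⁻¹.mulVecLin ∘ₗ LinearMap.pi φ, ?_⟩
    have h1 : (LinearMap.pi φ) ∘ₗ (Fintype.linearCombination R x) = A.mulVecLin := by
      refine LinearMap.ext fun c => funext fun l => ?_
      rw [LinearMap.comp_apply, LinearMap.pi_apply, Fintype.linearCombination_apply, map_sum, Matrix.mulVecLin_apply,
        Matrix.mulVec, dotProduct]
      refine Finset.sum_congr rfl fun j _ => ?_
      rw [map_smul, smul_eq_mul, hAd, mul_comm]
    rw [LinearMap.comp_assoc, h1, ← Matrix.mulVecLin_mul, Matrix.nonsing_inv_mul A hdet, Matrix.mulVecLin_one]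
  have hfin : freeRank R M = a := by
    apply le_antisymm
    · exact csSup_le ⟨a, hmem⟩ (fun b hb => hub b hb)
    · exact le_csSup ⟨a, fun b hb => hub b hb⟩ hmem
  rw [hfin]

end Pool.Agent.FSig
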