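import Pool.Agent.Work.MP_27623f_ag.Defs

/-!
MP_27623f_ag / LiftMap (size M).  Maps to all `R / m^n` with value 1 at `x` give a map to `R`.

PROOF.  `M` is finitely presented (`R` is Noetherian): `M = R^a / K`, `K` generated by
`k_1, ..., k_b ∈ R^a`, `x` the class of `ξ`.  A linear map `M → R` with `x ↦ 1` is a vector
`c ∈ R^a` with `k_j · c = 0` for all `j` and `ξ · c = 1`.  Let `L : R^a → R^(b+1)`,
`c ↦ (k_j · c, ξ · c)`.  The hypothesis says `(0, ..., 0, 1) ∈ range L + m^n R^(b+1)` for all `n`
(lift the vector over `R / m^n` to `R`).  Krull's intersection theorem for the finitely generated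
module `R^(b+1) / range L` (`Ideal.iInf_pow_smul_eq_bot_of_isLocalRing`) gives
`(0, ..., 0, 1) ∈ range L`.
-/

set_option autoImplicit false

namespace Pool.Agent.FSig

universe u

/-- A family whose coordinates lie in `I` is in `I • ⊤`. -/
theorem mem_smul_top_of_coord {R : Type u} [CommRing R] (I : Ideal R) {ι : Type*} [Fintype ι]
    (w : ι → R) (hw : ∀ j, w j ∈ I) : w ∈ I • (⊤ : Submodule R (ι → R)) := by
  classical
  have : w = ∑ j, w j • (Pi.single j (1 : R) : ι → R) := by
    funext i
    simp [Finset.sum_apply, Pi.single_apply]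
  rw [this]
  exact Submodule.sum_mem _ fun j _ => Submodule.smul_mem_smul (hw j) Submodule.mem_top

theorem exists_map_of_mod {R : Type u} [CommRing R] [IsNoetherianRing R] [IsLocalRing R]
    {M : Type u} [AddCommGroup M] [Module R M] [Module.Finite R M] (x : M)
    (h : ∀ n : ℕ, ∃ φ : M →ₗ[R] R ⧸ (IsLocalRing.maximalIdeal R ^ n), φ x = 1) :
    ∃ φ : M →ₗ[R] R, φ x = 1 := by
  classical
  obtain ⟨a, f, hf⟩ := Module.Finite.exists_fin' R M
  obtain ⟨ξ, hξ⟩ := hf x
  have hK : (LinearMap.ker f).FG := IsNoetherian.noetherian _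
  obtain ⟨S, hS⟩ := hK
  -- the linear map `L`
  let L : (Fin a → R) →ₗ[R] (Option S → R) :=
    LinearMap.pi fun o =>
      ∑ i, (match o with
        | some k => (k : Fin a → R) i
        | none => ξ i) • LinearMap.proj i
  have hLs : ∀ (c : Fin a → R) (k : S), L c (some k) = ∑ i, (k : Fin a → R) i * c i := by
    intro c k
    simp [L]
  have hLn : ∀ (c : Fin a → R), L c none = ∑ i, ξ i * c i := by
    intro c
    simp [L]
  let y : Option S → R := Pi.single none 1
  have hy : y ∈ LinearMap.range L := by
    have hall : ∀ n : ℕ, ∃ c : Fin a → R,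
        y - L c ∈ (IsLocalRing.maximalIdeal R ^ n) • (⊤ : Submodule R (Option S → R)) := by
      intro n
      obtain ⟨φ, hφ⟩ := h n
      choose c hc using fun i : Fin a => Ideal.Quotient.mk_surjective (φ (f (Pi.single i 1)))
      have key : ∀ v : Fin a → R,
          Ideal.Quotient.mk (IsLocalRing.maximalIdeal R ^ n) (∑ i, v i * c i) = φ (f v) := by
        intro v
        have hv : v = ∑ i, v i • (Pi.single i (1 : R) : Fin a → R) := by
          funext i
          simp [Finset.sum_apply, Pi.single_apply]
        conv_rhs => rw [hv]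
        rw [map_sum, map_sum, map_sum]
        refine Finset.sum_congr rfl fun i _ => ?_
        rw [map_smul, map_smul, map_mul, hc]
        rfl
      refine ⟨c, mem_smul_top_of_coord _ _ ?_⟩
      intro o
      cases o with
      | none =>
        have h1 : Ideal.Quotient.mk (IsLocalRing.maximalIdeal R ^ n) (L c none) = 1 := by
          rw [hLn, key, hξ, hφ]
        have : y none = 1 := by simp [y]
        rw [Pi.sub_apply, this, ← Ideal.Quotient.eq_zero_iff_mem, map_sub, h1, map_one, sub_self]
      | some k =>
        have hk : f (k : Fin a → R) = 0 := by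
          have : (k : Fin a → R) ∈ LinearMap.ker f := by
            rw [← hS]
            exact Submodule.subset_span k.2
          exact this
        have h1 : Ideal.Quotient.mk (IsLocalRing.maximalIdeal R ^ n) (L c (some k)) = 0 := by
          rw [hLs, key, hk, map_zero]
        have : y (some k) = 0 := by simp [y]
        rw [Pi.sub_apply, this, ← Ideal.Quotient.eq_zero_iff_mem, map_sub, h1, map_zero, sub_self]
    have hbot := Ideal.iInf_pow_smul_eq_bot_of_isLocalRing (M := (Option S → R) ⧸ LinearMap.range L)
      (IsLocalRing.maximalIdeal R) (Ideal.IsPrime.ne_top inferInstance)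
    have hmem : (LinearMap.range L).mkQ y ∈
        (⨅ n : ℕ, (IsLocalRing.maximalIdeal R ^ n) •
          (⊤ : Submodule R ((Option S → R) ⧸ LinearMap.range L))) := by
      rw [Submodule.mem_iInf]
      intro n
      obtain ⟨c, hc⟩ := hall n
      have h2 : (LinearMap.range L).mkQ y = (LinearMap.range L).mkQ (y - L c) := by
        rw [map_sub]
        have : (LinearMap.range L).mkQ (L c) = 0 := by
          rw [Submodule.mkQ_apply, Submodule.Quotient.mk_eq_zero]
          exact ⟨c, rfl⟩
        rw [this, sub_zero]
      rw [h2]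
      have h3 := Submodule.mem_map_of_mem (f := (LinearMap.range L).mkQ) hc
      rw [Submodule.map_smul''] at h3
      exact Submodule.smul_mono le_rfl le_top h3
    rw [hbot, Submodule.mem_bot, Submodule.mkQ_apply, Submodule.Quotient.mk_eq_zero] at hmem
    exact hmem
  obtain ⟨c, hc⟩ := hy
  let ψ : (Fin a → R) →ₗ[R] R := ∑ i, c i • LinearMap.proj i
  have hψ : ∀ v : Fin a → R, ψ v = ∑ i, v i * c i := by
    intro v
    simp [ψ, mul_comm]
  have hker : LinearMap.ker f ≤ LinearMap.ker ψ := by
    rw [← hS, Submodule.span_le]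
    intro k hk
    show ψ k = 0
    have := congrFun hc (some ⟨k, hk⟩)
    rw [hLs] at this
    rw [hψ, this]
    simp [y]
  have hsurj : Function.Surjective f := hf
  refine ⟨((LinearMap.ker f).liftQ ψ hker).comp
    (f.quotKerEquivOfSurjective hsurj).symm.toLinearMap, ?_⟩
  have hx : (f.quotKerEquivOfSurjective hsurj).symm x = (LinearMap.ker f).mkQ ξ := by
    rw [LinearEquiv.symm_apply_eq]
    rw [← hξ]
    rfl
  rw [LinearMap.comp_apply]
  show (LinearMap.ker f).liftQ ψ hker ((f.quotKerEquivOfSurjective hsurj).symm x) = 1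
  rw [hx, Submodule.mkQ_apply, Submodule.liftQ_apply, hψ, ← hLn, hc]
  simp [y]

end Pool.Agent.FSig
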