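import Pool.Agent.Work.MP_27623f_ag.SelfInj

/-!
MP_27623f_ag / MapMod (size S-M).  From `w • x ∉ I • M` to a map `M → R / I` with `x ↦ 1`.

PROOF.  `B = R / I` is Artinian local (`m^n ≤ I`, `I ≠ ⊤` because `w ∉ I`) with the simple socle
generated by the class of `w` (hypothesis `hs`).  `N = M / I M` is a `B`-module and the class of `x`
has `w • x ≠ 0`.  Apply `exists_map_eq_one` (file SelfInj) and compose with `M → M / I M`
(restrict scalars along `R → R / I`).
-/

set_option autoImplicit false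

namespace Pool.Agent.FSig

universe u

theorem exists_map_quot {R : Type u} [CommRing R] [IsNoetherianRing R] [IsLocalRing R]
    (I : Ideal R) (w : R) (hI : ∃ n, IsLocalRing.maximalIdeal R ^ n ≤ I) (hw : w ∉ I)
    (hs : ∀ a : R, a ∉ I → ∃ b, b * a - w ∈ I) {M : Type u} [AddCommGroup M] [Module R M]
    (x : M) (hx : w • x ∉ (I • (⊤ : Submodule R M))) :
    ∃ φ : M →ₗ[R] R ⧸ I, φ x = 1 := by
  have hI1 : I ≠ ⊤ := fun h => hw (h ▸ Submodule.mem_top)
  have : Nontrivial (R ⧸ I) := Ideal.Quotient.nontrivial_iff.2 hI1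
  have : IsLocalRing (R ⧸ I) :=
    IsLocalRing.of_surjective' (Ideal.Quotient.mk I) Ideal.Quotient.mk_surjective
  have : IsArtinianRing (R ⧸ I) := by
    obtain ⟨n, hn⟩ := hI
    rw [isArtinianRing_iff_isNilpotent_maximalIdeal]
    refine ⟨n, ?_⟩
    have h1 : IsLocalRing.maximalIdeal (R ⧸ I) ≤
        (IsLocalRing.maximalIdeal R).map (Ideal.Quotient.mk I) := by
      intro y hy
      obtain ⟨a, rfl⟩ := Ideal.Quotient.mk_surjective y
      apply Ideal.mem_map_of_mem
      rw [IsLocalRing.mem_maximalIdeal, mem_nonunits_iff] at hy ⊢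
      exact fun h => hy (h.map _)
    rw [Ideal.zero_eq_bot, eq_bot_iff]
    refine (Ideal.pow_right_mono h1 n).trans ?_
    rw [← Ideal.map_pow, Ideal.map_le_iff_le_comap]
    intro a ha
    rw [Ideal.mem_comap, Ideal.mem_bot, Ideal.Quotient.eq_zero_iff_mem]
    exact hn ha
  have hw' : (Ideal.Quotient.mk I w) ≠ 0 := fun h => hw (Ideal.Quotient.eq_zero_iff_mem.1 h)
  have hs' : ∀ a : R ⧸ I, a ≠ 0 → ∃ b, b * a = Ideal.Quotient.mk I w := by
    intro a ha
    obtain ⟨a, rfl⟩ := Ideal.Quotient.mk_surjective a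
    obtain ⟨b, hb⟩ := hs a (fun h => ha (Ideal.Quotient.eq_zero_iff_mem.2 h))
    refine ⟨Ideal.Quotient.mk I b, ?_⟩
    rw [← map_mul, ← sub_eq_zero, ← map_sub]
    exact Ideal.Quotient.eq_zero_iff_mem.2 hb
  obtain ⟨ψ, hψ⟩ := exists_map_eq_one (Ideal.Quotient.mk I w) hw' hs'
    (N := M ⧸ (I • (⊤ : Submodule R M))) (Submodule.Quotient.mk x) (by
      intro h
      apply hx
      rw [← Submodule.Quotient.mk_eq_zero]
      exact h)
  refine ⟨(ψ.restrictScalars R) ∘ₗ (Submodule.mkQ _), ?_⟩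
  exact hψ

end Pool.Agent.FSig
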