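import Pool.Agent.Work.MP_27623f_ag.Defs

/-!
MP_27623f_ag / RootLen (size M-L).  Lengths of `F_*^e (R / A)`.

`k` = residue field, `q = p^e`.  `rootDegree k q = [k : k^q]`; in characteristic `p` the set of
`q`-th powers is a subfield, so it is the closure in the definition.
`rootDegree_pos`: `R^{1/q}` is a finitely generated `R`-module (`frobenius R p` is finite, iterate),
hence `k` is a finitely generated module over `k^q`.
`length_root`, PROOF: induction on the length of `R / A` (finite).  If `A = R` both sides are 0.
Otherwise choose `a ∉ A` with `m a ≤ A` (socle), `A₁ = A + (a)`, `T₁ = F_* A₁`.  The map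
`R → A₁ / A`, `r ↦ r a`, induces `R/m ≅ A₁ / A`, length one, and `R^{1/q} → T₁ / T`, `r ↦ r a`
(linear for the action through `q`-th powers) is onto with kernel `F_* m`, so `T₁ / T ≅ F_*^e k`,
an `R`-module killed by `m` of length `dim_k F_*^e k = [k : k^q]`
(`Module.length_eq_finrank`-type lemma for the field, `Module.length_eq_of_surjective`).  Additivity
of length.  (Or prove for every `R`-module `N` of finite length that the restriction of scalars of
`N` along `iterateFrobenius R p e` has length `[k : k^q] * length N`, by induction on `N`.)
`finite_root`: iterate of a finite ring homomorphism is finite.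
-/

set_option autoImplicit false

namespace Pool.Agent.FSig

universe u

private theorem rl_iter_finite {R : Type u} [CommRing R] (p e : ℕ) [ExpChar R p] (hF : (frobenius R p).Finite) :
    (iterateFrobenius R p e).Finite := by
  induction e with
  | zero =>
    rw [iterateFrobenius_zero]
    exact RingHom.Finite.id R
  | succ n ih =>
    have : iterateFrobenius R p (n + 1) = (frobenius R p).comp (iterateFrobenius R p n) := by
      ext x
      rw [RingHom.comp_apply, iterateFrobenius_def, iterateFrobenius_def, frobenius_def, ← pow_mul, pow_succ]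
    rw [this]
    exact hF.comp ih

private theorem rl_charP {R : Type u} [CommRing R] [IsLocalRing R] (p : ℕ) [hp : Fact p.Prime] [CharP R p] :
    CharP (IsLocalRing.ResidueField R) p := by
  apply ringChar.of_eq
  apply CharP.ringChar_of_prime_eq_zero hp.1
  have h : ((p : R)) = 0 := CharP.cast_eq_zero R p
  rw [← map_natCast (IsLocalRing.residue R), h, map_zero]

private theorem rl_closure {k : Type u} [Field k] (p e : ℕ) [ExpChar k p] :
    Subfield.closure (Set.range fun a : k => a ^ p ^ e) = (iterateFrobenius k p e).fieldRange := by
  apply le_antisymm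
  · rw [Subfield.closure_le]
    rintro _ ⟨a, rfl⟩
    exact ⟨a, rfl⟩
  · rintro _ ⟨a, rfl⟩
    exact Subfield.subset_closure ⟨a, rfl⟩

private theorem rl_res_finite {R : Type u} [CommRing R] [IsLocalRing R] (p e : ℕ) [Fact p.Prime] [CharP R p]
    (hF : (frobenius R p).Finite) :
    Module.Finite (Subfield.closure (Set.range fun a : IsLocalRing.ResidueField R => a ^ p ^ e))
      (IsLocalRing.ResidueField R) := by
  have := rl_charP (R := R) p
  have h1 : ((iterateFrobenius (IsLocalRing.ResidueField R) p e).comp (IsLocalRing.residue R)).Finite := by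
    have : (iterateFrobenius (IsLocalRing.ResidueField R) p e).comp (IsLocalRing.residue R) =
        (IsLocalRing.residue R).comp (iterateFrobenius R p e) := by
      ext x
      rw [RingHom.comp_apply, RingHom.comp_apply, iterateFrobenius_def, iterateFrobenius_def, map_pow]
    rw [this]
    exact (RingHom.Finite.of_surjective _ IsLocalRing.residue_surjective).comp (rl_iter_finite p e hF)
  have h2 := RingHom.Finite.of_comp_finite h1
  rw [rl_closure]
  have h3 : ((iterateFrobenius (IsLocalRing.ResidueField R) p e).fieldRange.subtype.comp
      (iterateFrobenius (IsLocalRing.ResidueField R) p e).rangeRestrictField).Finite := by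
    have : (iterateFrobenius (IsLocalRing.ResidueField R) p e).fieldRange.subtype.comp
      (iterateFrobenius (IsLocalRing.ResidueField R) p e).rangeRestrictField =
        iterateFrobenius (IsLocalRing.ResidueField R) p e := by
      ext x; rfl
    rw [this]
    exact h2
  exact RingHom.Finite.of_comp_finite h3

private theorem rl_length {K L : Type u} [Field K] [Field L] [Algebra K L] (S : Subfield L)
    (hS : ∀ x : L, x ∈ S ↔ ∃ y : K, algebraMap K L y = x) (hfin : Module.Finite S L) :
    Module.length K L = Module.finrank S L := by
  let f : K →+* S := (algebraMap K L).codRestrict S fun y => (hS _).2 ⟨y, rfl⟩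
  let _ : Algebra K S := f.toAlgebra
  have : IsScalarTower K S L := IsScalarTower.of_algebraMap_eq fun x => rfl
  rw [← Module.length_eq_finrank]
  apply Module.length_eq_of_surjective
  rintro ⟨x, hx⟩
  obtain ⟨y, rfl⟩ := (hS x).1 hx
  exact ⟨y, rfl⟩

private def RB (R : Type u) (_p _e : ℕ) : Type u := R

private instance rbRing (R : Type u) [CommRing R] (p e : ℕ) : CommRing (RB R p e) :=
  inferInstanceAs (CommRing R)

private instance rbLocal (R : Type u) [CommRing R] [IsLocalRing R] (p e : ℕ) : IsLocalRing (RB R p e) :=
  inferInstanceAs (IsLocalRing R)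

private noncomputable instance rbAlg (R : Type u) [CommRing R] (p e : ℕ) [ExpChar R p] : Algebra R (RB R p e) :=
  RingHom.toAlgebra (R := R) (S := RB R p e) (iterateFrobenius R p e)

variable {R : Type u} [CommRing R]

theorem finite_root (p e : ℕ) [ExpChar R p] (hF : (frobenius R p).Finite) :
    Module.Finite R (RootMod R p e) :=
  rl_iter_finite p e hF

theorem rootDegree_pos [IsLocalRing R] (p e : ℕ) [Fact p.Prime] [CharP R p]
    (hF : (frobenius R p).Finite) :
    0 < rootDegree (IsLocalRing.ResidueField R) (p ^ e) :=
  by
  have := rl_res_finite p e hF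
  exact Module.finrank_pos

theorem length_root [IsNoetherianRing R] [IsLocalRing R] (p e : ℕ) [Fact p.Prime] [CharP R p]
    (hF : (frobenius R p).Finite) (A : Ideal R)
    (hA : ∃ n, IsLocalRing.maximalIdeal R ^ n ≤ A) (T : Submodule R (RootMod R p e))
    (hT : ∀ r : R, toRoot p e r ∈ T ↔ r ∈ A) :
    Module.length R (RootMod R p e ⧸ T) =
      ((rootDegree (IsLocalRing.ResidueField R) (p ^ e) : ℕ) : ℕ∞) * Module.length R (R ⧸ A) :=
  by
  have hch := rl_charP (R := R) p
  have hfin := rl_res_finite p e hF
  have hloc : IsLocalHom (algebraMap R (RB R p e)) := by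
    constructor
    intro a ha
    have h1 : IsUnit (a ^ p ^ e) := ha
    exact (isUnit_pow_iff (pow_ne_zero e (Fact.out : p.Prime).ne_zero)).1 h1
  let A' : Ideal (RB R p e) := A
  -- the quotient as a module over the copy of `R`
  let id' : RootMod R p e ≃ₗ[R] RB R p e :=
    { toFun := fun x => x
      map_add' := fun _ _ => rfl
      map_smul' := fun _ _ => rfl
      invFun := fun x => x
      left_inv := fun _ => rfl
      right_inv := fun _ => rfl }
  have h1 : Module.length R (RootMod R p e ⧸ T) = Module.length R (RB R p e ⧸ A') := by
    apply LinearEquiv.length_eq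
    refine (Submodule.Quotient.equiv T (A'.restrictScalars R) id' ?_).trans
      (Submodule.Quotient.restrictScalarsEquiv R A')
    ext x
    constructor
    · rintro ⟨y, hy, rfl⟩
      exact (hT y).1 hy
    · intro hx
      exact ⟨x, (hT x).2 hx, rfl⟩
  have h2 := IsLocalRing.length_restrictScalars R (RB R p e) (RB R p e ⧸ A')
  have h3 : Module.length (RB R p e) (RB R p e ⧸ A') = Module.length R (R ⧸ A) := rfl
  have h4 : Module.length (IsLocalRing.ResidueField R) (IsLocalRing.ResidueField (RB R p e)) =
      ((rootDegree (IsLocalRing.ResidueField R) (p ^ e) : ℕ) : ℕ∞) := by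
    refine rl_length (K := IsLocalRing.ResidueField R) (L := IsLocalRing.ResidueField (RB R p e))
      (Subfield.closure (Set.range fun a : IsLocalRing.ResidueField R => a ^ p ^ e)) ?_ hfin
    intro x
    have hmem : x ∈ Subfield.closure (Set.range fun a : IsLocalRing.ResidueField R => a ^ p ^ e) ↔
        ∃ y : IsLocalRing.ResidueField R, y ^ p ^ e = x := by
      rw [rl_closure]
      exact Iff.rfl
    refine hmem.trans (exists_congr fun y => ?_)
    obtain ⟨r, rfl⟩ := IsLocalRing.residue_surjective y
    have h5 : algebraMap (IsLocalRing.ResidueField R) (IsLocalRing.ResidueField (RB R p e))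
        (IsLocalRing.residue R r) = (IsLocalRing.residue R (r ^ p ^ e) : IsLocalRing.ResidueField R) := rfl
    rw [h5, map_pow]
    exact Iff.rfl
  rw [h1, h2, h3, h4, mul_comm]

end Pool.Agent.FSig
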