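import Pool.Agent.Work.MP_27623f_ag.Frob
import Pool.Agent.Work.MP_27623f_ag.MapMod
import Pool.Agent.Work.MP_27623f_ag.LiftMap
import Pool.Agent.Work.MP_27623f_ag.FreeRk
import Pool.Agent.Work.MP_27623f_ag.RootLen
import Pool.Agent.Work.MP_27623f_ag.ColonLen

/-!
MP_27623f_ag / Criterion (size M, taken by helper30).
-/

set_option autoImplicit false

namespace Pool.Agent.FSig

universe u

theorem mem_of_map {R : Type u} [CommRing R] {M : Type u} [AddCommGroup M] [Module R M]
    (I : Ideal R) (φ : M →ₗ[R] R) (y : M) (hy : y ∈ (I • (⊤ : Submodule R M))) : φ y ∈ I := by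
  refine Submodule.smul_induction_on hy ?_ ?_
  · intro a ha z _
    rw [map_smul, smul_eq_mul]
    exact Ideal.mul_mem_right _ _ ha
  · intro a b ha hb
    rw [map_add]
    exact Ideal.add_mem _ ha hb

theorem criterion {R : Type u} [CommRing R] [IsNoetherianRing R] [IsLocalRing R] (p : ℕ)
    [Fact p.Prime] [CharP R p] (hF : (frobenius R p).Finite) {ι : Type*} (I : ι → Ideal R)
    (w : ι → R) (hprim : ∀ t, ∃ n, IsLocalRing.maximalIdeal R ^ n ≤ I t)
    (hw : ∀ t, w t ∉ I t) (hsoc : ∀ t, ∀ a, a ∉ I t → ∃ b, b * a - w t ∈ I t)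
    (hcof : ∀ n, ∃ t, I t ≤ IsLocalRing.maximalIdeal R ^ n) (t0 : ι) (e : ℕ)
    (hstab : ∀ t r, r * w t ^ p ^ e ∈ frobPow (I t) (p ^ e) →
      r * w t0 ^ p ^ e ∈ frobPow (I t0) (p ^ e)) :
    rootDegree (IsLocalRing.ResidueField R) (p ^ e) * colen (frobPow (I t0) (p ^ e)) =
      rootDegree (IsLocalRing.ResidueField R) (p ^ e) *
        colen (frobPow (I t0 ⊔ Ideal.span {w t0}) (p ^ e)) + freeRank R (RootMod R p e) := by
  classical
  have : Module.Finite R (RootMod R p e) := finite_root p e hF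
  obtain ⟨nA, hA⟩ := exists_pow_le_frobPow (p ^ e) (hprim t0)
  have hC : ∃ n, IsLocalRing.maximalIdeal R ^ n ≤
      colonEl (frobPow (I t0) (p ^ e)) (w t0 ^ p ^ e) :=
    ⟨nA, fun r hr => mem_colonEl.2 (Ideal.mul_mem_right _ _ (hA hr))⟩
  have hB : ∃ n, IsLocalRing.maximalIdeal R ^ n ≤
      frobPow (I t0 ⊔ Ideal.span {w t0}) (p ^ e) :=
    ⟨nA, hA.trans (frobPow_mono _ le_sup_left)⟩
  have hT : ∀ r : R, toRoot p e r ∈ trSub R (RootMod R p e) ↔
      r ∈ colonEl (frobPow (I t0) (p ^ e)) (w t0 ^ p ^ e) := by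
    intro r
    rw [mem_trSub, mem_colonEl]
    constructor
    · intro h
      by_contra hr
      have h2 : ∃ φ : RootMod R p e →ₗ[R] R, φ (toRoot p e r) = 1 := by
        refine exists_map_of_mod _ (fun n => ?_)
        obtain ⟨t, ht⟩ := hcof n
        obtain ⟨φ, hφ⟩ := exists_map_quot (I t) (w t) (hprim t) (hw t) (hsoc t)
          (toRoot p e r) (by
            rw [smul_mem_iff]
            exact fun h' => hr (hstab t r h'))
        refine ⟨(Submodule.factor ht) ∘ₗ φ, ?_⟩
        rw [LinearMap.comp_apply, hφ]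
        rfl
      obtain ⟨φ, hφ⟩ := h2
      have h3 := h φ
      rw [hφ] at h3
      exact (Ideal.ne_top_iff_one _).1 (IsLocalRing.maximalIdeal.isMaximal R).ne_top h3
    · intro hr φ
      by_contra hu
      rw [IsLocalRing.mem_maximalIdeal, mem_nonunits_iff, not_not] at hu
      have h1 : w t0 • toRoot p e r ∈ (I t0 • (⊤ : Submodule R (RootMod R p e))) :=
        (smul_mem_iff p e (I t0) (w t0) r).2 hr
      have h2 := mem_of_map (I t0) φ _ h1
      rw [map_smul, smul_eq_mul] at h2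
      exact hw t0 ((Ideal.mul_unit_mem_iff_mem _ hu).1 h2)
  have h1 := freeRank_eq_length (R := R) (M := RootMod R p e)
  rw [length_root p e hF _ hC (trSub R (RootMod R p e)) hT] at h1
  have h2 := length_colon (frobPow (I t0) (p ^ e)) (w t0 ^ p ^ e)
  rw [← frobPow_sup_span] at h2
  have fC := length_ne_top _ hC
  have fA := length_ne_top _ ⟨nA, hA⟩
  have fB := length_ne_top _ hB
  unfold colen
  obtain ⟨c, hc⟩ := ENat.ne_top_iff_exists.1 fC
  obtain ⟨a, ha⟩ := ENat.ne_top_iff_exists.1 fA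
  obtain ⟨b, hb⟩ := ENat.ne_top_iff_exists.1 fB
  rw [← hc] at h1
  rw [← ha, ← hb, ← hc] at h2
  rw [← ha, ← hb, ENat.toNat_natCast, ENat.toNat_natCast]
  have h3 : a = c + b := by exact_mod_cast h2
  have h4 : freeRank R (RootMod R p e) =
      rootDegree (IsLocalRing.ResidueField R) (p ^ e) * c := by exact_mod_cast h1
  rw [h3, h4]
  ring

end Pool.Agent.FSig
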