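import Mathlib

/-!
MP_27623f_ag: definitions.  Frobenius powers of ideals, the module `R^{1/q}`, free rank,
the degree `[k^{1/q} : k]`, colengths.
-/

set_option autoImplicit false

namespace Pool.Agent.FSig

universe u

/-- `I^{[q]}`: the ideal generated by the `q`-th powers of the elements of `I`. -/
def frobPow {R : Type*} [CommRing R] (I : Ideal R) (q : ℕ) : Ideal R :=
  Ideal.span ((fun a : R => a ^ q) '' (I : Set R))

/-- `R^{1/q}` with `q = p ^ e`, written as the additive group of `R` in which `r : R` acts as
multiplication by `r ^ q` (the element `x` stands for the root `x^{1/q}`). -/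
def RootMod (R : Type u) (_p _e : ℕ) : Type u := R

instance (R : Type u) [CommRing R] (p e : ℕ) : AddCommGroup (RootMod R p e) :=
  inferInstanceAs (AddCommGroup R)

noncomputable instance (R : Type u) [CommRing R] (p e : ℕ) [ExpChar R p] :
    Module R (RootMod R p e) :=
  Module.compHom R (iterateFrobenius R p e)

/-- The element `x^{1/q}` of `R^{1/q}`. -/
def toRoot {R : Type u} (p e : ℕ) (x : R) : RootMod R p e := x

/-- `frk_R(M)`: the largest `a` such that `M` has a direct summand isomorphic to `R^a`. -/
noncomputable def freeRank (R : Type*) [CommRing R] (M : Type*) [AddCommGroup M] [Module R M] : ℕ :=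
  sSup {a : ℕ | ∃ (i : (Fin a → R) →ₗ[R] M) (π : M →ₗ[R] (Fin a → R)), π ∘ₗ i = LinearMap.id}

/-- `[k^{1/q} : k] = [k : k^q]` for a field `k` of characteristic `p` and `q = p ^ e`. -/
noncomputable def rootDegree (k : Type*) [Field k] (q : ℕ) : ℕ :=
  Module.finrank (Subfield.closure (Set.range fun a : k => a ^ q)) k

/-- The length of `R / I` (a natural number; only used for ideals with `R / I` of finite
length). -/
noncomputable def colen {R : Type*} [CommRing R] (I : Ideal R) : ℕ :=
  (Module.length R (R ⧸ I)).toNat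

/-- The colon ideal `(A : w) = {r | r * w ∈ A}`. -/
def colonEl {R : Type*} [CommRing R] (A : Ideal R) (w : R) : Ideal R where
  carrier := {r | r * w ∈ A}
  add_mem' := fun {a b} ha hb => by
    simp only [Set.mem_ofPred_eq] at *
    rw [add_mul]
    exact A.add_mem ha hb
  zero_mem' := by simp
  smul_mem' := fun c a ha => by
    simp only [Set.mem_ofPred_eq, smul_eq_mul] at *
    rw [mul_assoc]
    exact A.mul_mem_left c ha

theorem mem_colonEl {R : Type*} [CommRing R] {A : Ideal R} {w r : R} :
    r ∈ colonEl A w ↔ r * w ∈ A := Iff.rfl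

/-- The elements of `M` which no linear form `M → R` sends to a unit. -/
def trSub (R : Type*) [CommRing R] [IsLocalRing R] (M : Type*) [AddCommGroup M] [Module R M] :
    Submodule R M where
  carrier := {x | ∀ φ : M →ₗ[R] R, φ x ∈ IsLocalRing.maximalIdeal R}
  add_mem' := fun {a b} ha hb φ => by
    rw [map_add]
    exact Ideal.add_mem _ (ha φ) (hb φ)
  zero_mem' := fun φ => by simp
  smul_mem' := fun c a ha φ => by
    rw [map_smul, smul_eq_mul]
    exact Ideal.mul_mem_left _ c (ha φ)

theorem mem_trSub {R : Type*} [CommRing R] [IsLocalRing R] {M : Type*} [AddCommGroup M]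
    [Module R M] {x : M} :
    x ∈ trSub R M ↔ ∀ φ : M →ₗ[R] R, φ x ∈ IsLocalRing.maximalIdeal R := Iff.rfl

/-- The ideal `(x_1^{a_1}, ..., x_n^{a_n})`. -/
def powId {S : Type*} [CommRing S] {n : ℕ} (x : Fin n → S) (a : Fin n → ℕ) : Ideal S :=
  Ideal.span (Set.range fun i => x i ^ a i)

/-- `R` is the degree zero part of a `G`-graded ring `S` which is graded Gorenstein, with a
homogeneous (in every order regular) sequence of parameters `x_1, ..., x_n` of degrees `δ_i`,
socle generator `v` of degree `d` modulo `(x)`, such that for every `i` some power of the product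
of the `x_j`, `j ≠ i`, lies in the ideal generated by the homogeneous elements of degree
`δ_i - d` (this holds when the group scheme of the grading acts freely in codimension two and two
of the `x_j` vanish on the locus where it does not act freely), and such that
`d + ∑ κ_i δ_i = 0` has solutions `κ` with all `κ_i` arbitrarily large. -/
structure GorCover (R : Type*) [CommRing R] [IsLocalRing R] {S : Type*} [CommRing S]
    [Algebra R S] {G : Type*} [AddCommGroup G] (𝒜 : G → Submodule R S) {n : ℕ}
    (x : Fin n → S) (δ : Fin n → G) (v : S) (d : G) : Prop where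
  inj : Function.Injective (algebraMap R S)
  zero : ∀ s ∈ 𝒜 0, ∃ r : R, algebraMap R S r = s
  mem_x : ∀ i, x i ∈ 𝒜 (δ i)
  reg : ∀ (i : Fin n) (T : Finset (Fin n)), i ∉ T → ∀ s : S,
    x i * s ∈ Ideal.span (x '' T) → s ∈ Ideal.span (x '' T)
  primary : ∃ c : ℕ, (IsLocalRing.maximalIdeal R ^ c).map (algebraMap R S) ≤
    Ideal.span (Set.range x)
  mem_v : v ∈ 𝒜 d
  v_not_mem : v ∉ Ideal.span (Set.range x)
  socle : ∀ (g : G), ∀ s ∈ 𝒜 g, s ∉ Ideal.span (Set.range x) →
    ∃ t : S, t * s - v ∈ Ideal.span (Set.range x)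
  free : ∀ i, ∃ N : ℕ, ∏ j ∈ Finset.univ.erase i, x j ^ N ∈
    Ideal.span (𝒜 (δ i - d) : Set S)
  bal : ∀ N : ℕ, ∃ κ : Fin n → ℕ, (∀ i, N ≤ κ i) ∧ d + ∑ i, κ i • δ i = 0

end Pool.Agent.FSig
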