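import Pool.Agent.Work.MP_27623f_ag.Defs

/-!
MP_27623f_ag / Key (size M-L).  The key lemma: uniform stability.

Notation: `q = p^e`, `I_κ = R ∩ (x_i^{κ_i + 1})`, `u_κ ∈ R` with image `v ∏ x_i^{κ_i}`.
Hypothesis `hprod` = conclusion of `colon_prod`.  `N0` is such that
`X_i := ∏_{j ≠ i} x_j^{λ_j}` lies in the ideal generated by `𝒜 (δ i - d)` as soon as all
`λ_j ≥ N0` (hypothesis `hN`).
PROOF of `key`.  Let `r ∈ R`, `r u_κ^q ∈ I_κ^{[q]}`.  In `S`:
`r v^q ∏ x_i^{q κ_i} ∈ (x_i^{q κ_i + q})`, so by `hprod` (exponents `q κ_i` and `q`)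
`r v^q ∈ (x_i^q)`, `r v^q = ∑_i x_i^q A_i`.  Taking the component of degree `q d` we may assume that
`A_i` is homogeneous of degree `q (d - δ_i)`.  Then
`r u_λ^q = r v^q ∏_j x_j^{q λ_j} = ∑_i x_i^{q (λ_i + 1)} X_i^q A_i`.  Write
`X_i = ∑_l w_l y_l`, `w_l ∈ 𝒜 (δ_i - d)`, `y_l` homogeneous of degree
`(∑_{j ≠ i} λ_j δ_j) - (δ_i - d) = - (λ_i + 1) δ_i` (components; use
`d + ∑ λ_j δ_j = 0`).  Characteristic `p`: `X_i^q = ∑_l w_l^q y_l^q`
(`sum_pow_char_pow` or `iterateFrobenius`), so the `i`-th term is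
`∑_l (x_i^{λ_i + 1} y_l)^q (w_l^q A_i)`, where `x_i^{λ_i+1} y_l` has degree 0 and lies in
`(x_j^{λ_j + 1})`, so it is the image of an element of `I_λ`, and `w_l^q A_i` has degree
`q (δ_i - d) + q (d - δ_i) = 0`, so it is the image of an element of `R`.  Hence
`r u_λ^q` is the image of an element of `I_λ^{[q]}`; `algebraMap` is injective (`h.inj`).
`exists_N0`: `h.free i` gives `N_i` for each `i`, take the maximum.
-/

set_option autoImplicit false

namespace Pool.Agent.FSig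

variable {R : Type*} [CommRing R] [IsLocalRing R] {S : Type*} [CommRing S] [Algebra R S]
  {G : Type*} [AddCommGroup G] [DecidableEq G] {𝒜 : G → Submodule R S} [GradedAlgebra 𝒜]
  {n : ℕ} {x : Fin n → S} {δ : Fin n → G} {v : S} {d : G}

private theorem prod_mem_grade' (hx : ∀ i, x i ∈ 𝒜 (δ i)) (s : Finset (Fin n)) (a : Fin n → ℕ) :
    ∏ i ∈ s, x i ^ a i ∈ 𝒜 (∑ i ∈ s, a i • δ i) :=
  SetLike.prod_mem_graded 𝒜 (fun i => a i • δ i) (fun i => x i ^ a i)
    (fun i _ => SetLike.pow_mem_graded _ (hx i))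

omit [IsLocalRing R] in
private theorem comp_sum {ι : Type*} [Fintype ι] (m : G) (k : ι → G) (c w : ι → S)
    (hw : ∀ l, w l ∈ 𝒜 (k l)) (hX : ∑ l, c l * w l ∈ 𝒜 m) :
    ∃ c' : ι → S, (∀ l, c' l ∈ 𝒜 (m - k l)) ∧ ∑ l, c l * w l = ∑ l, c' l * w l := by
  refine ⟨fun l => (DirectSum.decompose 𝒜 (c l) (m - k l) : S), fun l => SetLike.coe_mem _, ?_⟩
  have h1 : GradedRing.proj 𝒜 m (∑ l, c l * w l) = ∑ l, c l * w l := by
    rw [GradedRing.proj_apply, DirectSum.decompose_of_mem_same _ hX]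
  rw [← h1, map_sum]
  refine Finset.sum_congr rfl fun l _ => ?_
  rw [GradedRing.proj_apply]
  have h3 : m = (m - k l) + k l := by abel
  conv_lhs => rw [h3]
  exact DirectSum.coe_decompose_mul_add_of_right_mem 𝒜 (hw l)

theorem exists_N0 (h : GorCover R 𝒜 x δ v d) :
    ∃ N0 : ℕ, ∀ lam : Fin n → ℕ, (∀ i, N0 ≤ lam i) → ∀ i,
      ∏ j ∈ Finset.univ.erase i, x j ^ lam j ∈ Ideal.span (𝒜 (δ i - d) : Set S) := by
  choose N hN using h.free
  refine ⟨Finset.univ.sup N, fun lam hlam i => ?_⟩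
  have h1 : N i ≤ Finset.univ.sup N := Finset.le_sup (Finset.mem_univ i)
  have h2 : ∏ j ∈ Finset.univ.erase i, x j ^ lam j =
      (∏ j ∈ Finset.univ.erase i, x j ^ (lam j - N i)) * ∏ j ∈ Finset.univ.erase i, x j ^ N i := by
    rw [← Finset.prod_mul_distrib]
    refine Finset.prod_congr rfl fun j _ => ?_
    rw [← pow_add]
    congr 1
    have := hlam j
    omega
  rw [h2]
  exact Ideal.mul_mem_left _ _ (hN i)

theorem key (p e : ℕ) [Fact p.Prime] [CharP R p] (h : GorCover R 𝒜 x δ v d)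
    (hprod : ∀ (κ b : Fin n → ℕ) (s : S), s * ∏ i, x i ^ κ i ∈ powId x (fun i => κ i + b i) →
      s ∈ powId x b)
    (lam : Fin n → ℕ) (hlam : d + ∑ i, lam i • δ i = 0)
    (hN : ∀ i, ∏ j ∈ Finset.univ.erase i, x j ^ lam j ∈ Ideal.span (𝒜 (δ i - d) : Set S))
    (κ : Fin n → ℕ) (wκ wlam : R) (hwκ : algebraMap R S wκ = v * ∏ i, x i ^ κ i)
    (hwlam : algebraMap R S wlam = v * ∏ i, x i ^ lam i) (r : R)
    (hr : r * wκ ^ p ^ e ∈
      frobPow ((powId x (fun i => κ i + 1)).comap (algebraMap R S)) (p ^ e)) :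
    r * wlam ^ p ^ e ∈
      frobPow ((powId x (fun i => lam i + 1)).comap (algebraMap R S)) (p ^ e) := by
  classical
  haveI : CharP S p := charP_of_injective_algebraMap h.inj p
  haveI : ExpChar S p := ExpChar.prime Fact.out
  set q := p ^ e with hq
  -- step 1
  have s1 : frobPow ((powId x (fun i => κ i + 1)).comap (algebraMap R S)) q ≤
      (powId x (fun i => κ i * q + q)).comap (algebraMap R S) := by
    rw [frobPow, Ideal.span_le]
    rintro _ ⟨a, ha, rfl⟩
    show algebraMap R S (a ^ q) ∈ powId x (fun i => κ i * q + q)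
    rw [map_pow]
    obtain ⟨c, hc⟩ := Ideal.mem_span_range_iff_exists_fun.1
      (show algebraMap R S a ∈ Ideal.span (Set.range fun i => x i ^ (κ i + 1)) from ha)
    rw [← hc, hq, sum_pow_char_pow]
    refine Ideal.sum_mem _ fun i _ => ?_
    rw [mul_pow, ← pow_mul, add_mul, one_mul]
    exact Ideal.mul_mem_left _ _ (Ideal.subset_span ⟨i, rfl⟩)
  have s2 : algebraMap R S r * v ^ q ∈ powId x (fun _ => q) := by
    apply hprod (fun i => κ i * q) (fun _ => q)
    have h1 : algebraMap R S (r * wκ ^ q) ∈ powId x (fun i => κ i * q + q) := s1 hr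
    rw [map_mul, map_pow, hwκ, mul_pow, ← Finset.prod_pow, ← mul_assoc] at h1
    simpa only [pow_mul] using h1
  obtain ⟨A0, hA0⟩ := Ideal.mem_span_range_iff_exists_fun.1
    (show algebraMap R S r * v ^ q ∈ Ideal.span (Set.range fun i => x i ^ q) from s2)
  have hr0 : algebraMap R S r ∈ 𝒜 0 := SetLike.algebraMap_mem_graded 𝒜 r
  have hz : ∑ i, A0 i * x i ^ q ∈ 𝒜 (q • d) := by
    rw [hA0]
    have := SetLike.mul_mem_graded hr0 (SetLike.pow_mem_graded q h.mem_v)
    rwa [zero_add] at this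
  obtain ⟨A, hA, hAs⟩ := comp_sum (𝒜 := 𝒜) (q • d) (fun i => q • δ i) A0 (fun i => x i ^ q)
    (fun i => SetLike.pow_mem_graded q (h.mem_x i)) hz
  rw [hA0] at hAs
  -- the summands
  have key1 : ∀ i, ∃ ρ ∈ frobPow ((powId x (fun i => lam i + 1)).comap (algebraMap R S)) q,
      algebraMap R S ρ = A i * x i ^ q * (∏ j, x j ^ lam j) ^ q := by
    intro i
    obtain ⟨N, c0, w, hcw⟩ := Submodule.mem_span_set'.1 (hN i)
    simp only [smul_eq_mul] at hcw
    have hXm : ∑ l, c0 l * (w l : S) ∈ 𝒜 (∑ j ∈ Finset.univ.erase i, lam j • δ j) := by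
      rw [hcw]
      exact prod_mem_grade' h.mem_x _ lam
    obtain ⟨y, hy, hys⟩ := comp_sum (𝒜 := 𝒜) _ (fun _ => δ i - d) c0 (fun l => (w l : S))
      (fun l => (w l).2) hXm
    have hsum : ∑ j ∈ Finset.univ.erase i, lam j • δ j = - d - lam i • δ i := by
      have h1 := Finset.add_sum_erase Finset.univ (fun j => lam j • δ j) (Finset.mem_univ i)
      rw [← h1] at hlam
      have h2 : ∑ j ∈ Finset.univ.erase i, lam j • δ j =
          (d + (lam i • δ i + ∑ j ∈ Finset.univ.erase i, lam j • δ j)) - d - lam i • δ i := by abel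
      rw [h2, hlam, zero_sub]
    have hyd : ∀ l, x i ^ (lam i + 1) * y l ∈ 𝒜 0 := by
      intro l
      have h1 := SetLike.mul_mem_graded (SetLike.pow_mem_graded (lam i + 1) (h.mem_x i)) (hy l)
      rw [hsum] at h1
      have h2 : (lam i + 1) • δ i + (- d - lam i • δ i - (δ i - d)) = 0 := by
        rw [add_smul, one_smul]
        abel
      rwa [h2] at h1
    have hwd : ∀ l, (w l : S) ^ q * A i ∈ 𝒜 0 := by
      intro l
      have h1 := SetLike.mul_mem_graded (SetLike.pow_mem_graded q (w l).2) (hA i)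
      have h2 : q • (δ i - d) + (q • d - q • δ i) = 0 := by
        rw [smul_sub]
        abel
      rwa [h2] at h1
    choose a ha using fun l => h.zero _ (hyd l)
    choose b hb using fun l => h.zero _ (hwd l)
    refine ⟨∑ l, b l * a l ^ q, ?_, ?_⟩
    · refine Ideal.sum_mem _ fun l _ => Ideal.mul_mem_left _ _ (Ideal.subset_span ⟨a l, ?_, rfl⟩)
      show algebraMap R S (a l) ∈ powId x (fun i => lam i + 1)
      rw [ha l]
      exact Ideal.mul_mem_right _ _ (Ideal.subset_span ⟨i, rfl⟩)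
    · rw [map_sum]
      have h1 : (∏ j, x j ^ lam j) = x i ^ lam i * ∑ l, y l * (w l : S) := by
        rw [← hys, hcw]
        exact (Finset.mul_prod_erase Finset.univ (fun j => x j ^ lam j) (Finset.mem_univ i)).symm
      rw [h1, mul_pow, hq, sum_pow_char_pow, ← hq, Finset.mul_sum, Finset.mul_sum]
      refine Finset.sum_congr rfl fun l _ => ?_
      rw [map_mul, map_pow, ha l, hb l]
      ring
  choose ρ hρ hρe using key1
  have hfin : algebraMap R S (r * wlam ^ q) = algebraMap R S (∑ i, ρ i) := by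
    rw [map_sum, map_mul, map_pow, hwlam, mul_pow, ← mul_assoc, hAs, Finset.sum_mul]
    exact Finset.sum_congr rfl fun i _ => (hρe i).symm
  rw [h.inj hfin]
  exact Ideal.sum_mem _ fun i _ => hρ i

end Pool.Agent.FSig
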