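import Pool.Agent.Work.MP_27623f_ag.Defs

/-!
MP_27623f_ag / RegPow (size M).  Powers of a permutable regular sequence.

Hypothesis `hreg`: `x_i` is a nonzerodivisor modulo `(x_j : j ∈ T)` for all `i ∉ T`.
PROOF of `reg_pow` for `c = 1` by strong induction on `∑_{j ∈ T} a_j` (for all `i`, `T`, `a`).
If some `a_j = 0`, `j ∈ T`, the ideal is `⊤`.  If all `a_j = 1` it is the hypothesis.  Otherwise
choose `j ∈ T` with `a_j ≥ 2`, `K = (x_l^{a_l} : l ∈ T - j)`.  From `x_i s ∈ (x_j^{a_j}) + K` we get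
`x_i s ∈ (x_j^{a_j - 1}) + K`, so `s = x_j^{a_j - 1} s' + k` (`k ∈ K`) by induction.  Then
`x_i x_j^{a_j-1} s' = x_j^{a_j} s'' + k'`, so `x_j^{a_j-1} (x_i s' - x_j s'') ∈ K`; `x_j` is a
nonzerodivisor modulo `K` (induction, `j ∉ T - j`, smaller sum; apply it `a_j - 1` times), so
`x_i s' ∈ (x_j) + K`, and by induction (exponent `1 < a_j` at `j`) `s' ∈ (x_j) + K`.  Hence
`s ∈ (x_j^{a_j}) + K`.  General `c`: iterate.
-/

set_option autoImplicit false

namespace Pool.Agent.FSig

private theorem mem_ins {S : Type*} [CommRing S] {n : ℕ} (x : Fin n → S) (a : Fin n → ℕ)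
    (j : Fin n) (T : Finset (Fin n)) (s : S) :
    s ∈ Ideal.span ((fun l => x l ^ a l) '' ((insert j T : Finset (Fin n)) : Set (Fin n))) ↔
      ∃ u, ∃ k ∈ Ideal.span ((fun l => x l ^ a l) '' (T : Set (Fin n))),
        s = u * x j ^ a j + k := by
  rw [Finset.coe_insert, Set.image_insert_eq, Ideal.mem_span_insert]

private theorem upd_same {S : Type*} [CommRing S] {n : ℕ} (x : Fin n → S) (a : Fin n → ℕ)
    (j : Fin n) (b : ℕ) (T : Finset (Fin n)) (hj : j ∉ T) :
    (fun l => x l ^ Function.update a j b l) '' (T : Set (Fin n)) =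
      (fun l => x l ^ a l) '' (T : Set (Fin n)) := by
  refine Set.image_congr fun l hl => ?_
  have h : l ≠ j := fun h => hj (h ▸ hl)
  rw [Function.update_of_ne h]

private theorem iter {S : Type*} [CommRing S] (y : S) (I : Ideal S)
    (h : ∀ s, y * s ∈ I → s ∈ I) (c : ℕ) : ∀ s, y ^ c * s ∈ I → s ∈ I := by
  induction c with
  | zero => intro s hs; simpa using hs
  | succ c ih =>
    intro s hs
    refine h s (ih _ ?_)
    rw [← mul_assoc, ← pow_succ]
    exact hs

private theorem reg_one {S : Type*} [CommRing S] {n : ℕ} (x : Fin n → S)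
    (hreg : ∀ (i : Fin n) (T : Finset (Fin n)), i ∉ T → ∀ s : S,
      x i * s ∈ Ideal.span (x '' T) → s ∈ Ideal.span (x '' T)) (N : ℕ) :
    ∀ (a : Fin n → ℕ) (T : Finset (Fin n)), ∑ j ∈ T, a j = N → ∀ i, i ∉ T → ∀ s : S,
      x i * s ∈ Ideal.span ((fun j => x j ^ a j) '' (T : Set (Fin n))) →
      s ∈ Ideal.span ((fun j => x j ^ a j) '' (T : Set (Fin n))) := by
  induction N using Nat.strong_induction_on with
  | _ N ih =>
  intro a T hN i hi s hs
  by_cases h0 : ∃ j ∈ T, a j = 0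
  · obtain ⟨j, hj, hj0⟩ := h0
    have h1 : (1 : S) ∈ Ideal.span ((fun j => x j ^ a j) '' (T : Set (Fin n))) :=
      Ideal.subset_span ⟨j, hj, by simp [hj0]⟩
    simpa using Ideal.mul_mem_left _ s h1
  by_cases h2 : ∃ j ∈ T, 2 ≤ a j
  swap
  · have h1 : (fun j => x j ^ a j) '' (T : Set (Fin n)) = x '' (T : Set (Fin n)) := by
      refine Set.image_congr fun l hl => ?_
      have e1 : a l ≠ 0 := fun h => h0 ⟨l, hl, h⟩
      have e2 : ¬ 2 ≤ a l := fun h => h2 ⟨l, hl, h⟩
      have e3 : a l = 1 := by omega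
      rw [e3, pow_one]
    rw [h1] at hs ⊢
    exact hreg i T hi s hs
  obtain ⟨j, hj, hj2⟩ := h2
  set T' := T.erase j with hT'
  have hins : insert j T' = T := Finset.insert_erase hj
  have hjT' : j ∉ T' := Finset.notMem_erase j T
  have hsum : a j + ∑ l ∈ T', a l = N := by
    rw [← hN, ← hins, Finset.sum_insert hjT']
  have hupd : ∀ b, ∑ l ∈ T, Function.update a j b l = b + ∑ l ∈ T', a l := by
    intro b
    rw [← hins, Finset.sum_insert hjT', Function.update_self]
    congr 1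
    refine Finset.sum_congr rfl fun l hl => ?_
    have h : l ≠ j := fun h => hjT' (h ▸ hl)
    rw [Function.update_of_ne h]
  have hmem : ∀ (b : ℕ) (s : S),
      s ∈ Ideal.span ((fun l => x l ^ Function.update a j b l) '' (T : Set (Fin n))) ↔
        ∃ u, ∃ k ∈ Ideal.span ((fun l => x l ^ a l) '' (T' : Set (Fin n))),
          s = u * x j ^ b + k := by
    intro b s
    rw [← hins, mem_ins, Function.update_self, upd_same x a j b T' hjT']
  have hmem0 : ∀ s : S, s ∈ Ideal.span ((fun l => x l ^ a l) '' (T : Set (Fin n))) ↔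
        ∃ u, ∃ k ∈ Ideal.span ((fun l => x l ^ a l) '' (T' : Set (Fin n))),
          s = u * x j ^ a j + k := by
    intro s
    rw [← hins, mem_ins]
  obtain ⟨u, k0, hk0, hu⟩ := (hmem0 _).1 hs
  obtain ⟨m, hm⟩ : ∃ m, a j = m + 1 := ⟨a j - 1, by omega⟩
  -- first step
  have h1 : x i * s ∈ Ideal.span ((fun l => x l ^ Function.update a j m l) ''
      (T : Set (Fin n))) := by
    rw [hmem]
    refine ⟨u * x j, k0, hk0, ?_⟩
    rw [hu, hm]
    ring
  obtain ⟨s', k, hk, hs'⟩ := (hmem _ _).1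
    (ih _ (by omega) (Function.update a j m) T (hupd m) i hi s h1)
  have h3 : x j ^ m * (x i * s' - x j * u) ∈
      Ideal.span ((fun l => x l ^ a l) '' (T' : Set (Fin n))) := by
    have e : x j ^ m * (x i * s' - x j * u) = k0 - x i * k := by
      have e1 : x i * (s' * x j ^ m + k) = u * x j ^ (m + 1) + k0 := by
        rw [← hs', hu, hm]
      linear_combination e1
    rw [e]
    exact Ideal.sub_mem _ hk0 (Ideal.mul_mem_left _ _ hk)
  have h4 := iter (x j) _ (ih _ (by omega) a T' rfl j hjT') m _ h3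
  have h5 : x i * s' ∈ Ideal.span ((fun l => x l ^ Function.update a j 1 l) ''
      (T : Set (Fin n))) := by
    rw [hmem]
    exact ⟨u, _, h4, by ring⟩
  obtain ⟨v, k2, hk2, hs2⟩ := (hmem _ _).1
    (ih _ (by omega) (Function.update a j 1) T (hupd 1) i hi s' h5)
  rw [hmem0]
  refine ⟨v, k2 * x j ^ m + k, Ideal.add_mem _ (Ideal.mul_mem_right _ _ hk2) hk, ?_⟩
  rw [hs', hs2, hm]
  ring

theorem reg_pow {S : Type*} [CommRing S] {n : ℕ} (x : Fin n → S)
    (hreg : ∀ (i : Fin n) (T : Finset (Fin n)), i ∉ T → ∀ s : S,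
      x i * s ∈ Ideal.span (x '' T) → s ∈ Ideal.span (x '' T))
    (a : Fin n → ℕ) (i : Fin n) (T : Finset (Fin n)) (hi : i ∉ T) (c : ℕ) (s : S)
    (h : x i ^ c * s ∈ Ideal.span ((fun j => x j ^ a j) '' (T : Set (Fin n)))) :
    s ∈ Ideal.span ((fun j => x j ^ a j) '' (T : Set (Fin n))) :=
  iter (x i) _ (reg_one x hreg _ a T rfl i hi) c s h

end Pool.Agent.FSig
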