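import Pool.Agent.Work.MP_27623f_ag.SocleS

/-!
MP_27623f_ag / SocleR (size S-M).  The socle of `R / I_κ`, `I_κ = R ∩ (x_i^{κ_i + 1})`.

`exists_elt`, PROOF: `v ∏ x_i^{κ_i}` is homogeneous of degree `d + ∑ κ_i δ_i = 0`
(`SetLike.mul_mem_graded`, `SetLike.prod_mem_graded`, `SetLike.pow_mem_graded`), use `h.zero`.
`socle_R`, PROOF: if `a ∉ I_κ` then `algebraMap a` (degree 0) is not in `powId x (κ+1)`; by
`socle_mult` `t a - u ∈ powId`.  The ideal `powId x _` is homogeneous, `a`, `u` have degree 0, so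
the degree 0 component `t_0` of `t` also satisfies `t_0 a - u ∈ powId`, `t_0 = algebraMap b`.
-/

set_option autoImplicit false

namespace Pool.Agent.FSig

variable {R : Type*} [CommRing R] [IsLocalRing R] {S : Type*} [CommRing S] [Algebra R S]
  {G : Type*} [AddCommGroup G] [DecidableEq G] {𝒜 : G → Submodule R S} [GradedAlgebra 𝒜]
  {n : ℕ} {x : Fin n → S} {δ : Fin n → G} {v : S} {d : G}

private theorem u_mem (h : GorCover R 𝒜 x δ v d) (κ : Fin n → ℕ) :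
    v * ∏ i, x i ^ κ i ∈ 𝒜 (d + ∑ i, κ i • δ i) :=
  SetLike.mul_mem_graded h.mem_v
    (SetLike.prod_mem_graded 𝒜 (fun i => κ i • δ i) (fun i => x i ^ κ i)
      fun i _ => SetLike.pow_mem_graded (κ i) (h.mem_x i))

theorem exists_elt (h : GorCover R 𝒜 x δ v d) (κ : Fin n → ℕ)
    (hκ : d + ∑ i, κ i • δ i = 0) : ∃ w : R, algebraMap R S w = v * ∏ i, x i ^ κ i := by
  have h1 := u_mem h κ
  rw [hκ] at h1
  exact h.zero _ h1

theorem socle_R (h : GorCover R 𝒜 x δ v d)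
    (hmax : ∀ (κ : Fin n → ℕ) (s : S), (∀ i, x i * s ∈ powId x (fun j => κ j + 1)) →
      ∃ w : S, s - w * ∏ i, x i ^ κ i ∈ powId x (fun j => κ j + 1))
    (κ : Fin n → ℕ) (w : R) (hw : algebraMap R S w = v * ∏ i, x i ^ κ i)
    (a : R) (ha : a ∉ (powId x (fun i => κ i + 1)).comap (algebraMap R S)) :
    ∃ b : R, b * a - w ∈ (powId x (fun i => κ i + 1)).comap (algebraMap R S) := by
  have ha0 : algebraMap R S a ∈ 𝒜 0 := SetLike.algebraMap_mem_graded 𝒜 a
  have hw0 : algebraMap R S w ∈ 𝒜 0 := SetLike.algebraMap_mem_graded 𝒜 w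
  have ha' : algebraMap R S a ∉ powId x (fun i => κ i + 1) := fun h1 => ha (Ideal.mem_comap.2 h1)
  obtain ⟨t, ht⟩ := socle_mult h hmax κ 0 (algebraMap R S a) ha0 ha'
  rw [← hw] at ht
  have hhom : (powId x (fun i => κ i + 1)).IsHomogeneous 𝒜 := by
    refine Ideal.homogeneous_span 𝒜 _ ?_
    rintro _ ⟨i, rfl⟩
    exact ⟨(κ i + 1) • δ i, SetLike.pow_mem_graded (κ i + 1) (h.mem_x i)⟩
  have h1 := hhom 0 ht
  rw [DirectSum.decompose_sub, DirectSum.sub_apply, AddSubgroupClass.coe_sub,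
    DirectSum.coe_decompose_mul_of_right_mem_zero 𝒜 ha0, DirectSum.decompose_of_mem_same 𝒜 hw0]
    at h1
  obtain ⟨b, hb⟩ := h.zero _ (DirectSum.decompose 𝒜 t 0).2
  refine ⟨b, ?_⟩
  rw [Ideal.mem_comap, map_sub, map_mul, hb]
  exact h1

end Pool.Agent.FSig
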