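import Pool.Agent.Work.MP_27623f_ag.Criterion
import Pool.Agent.Work.MP_27623f_ag.RegPow
import Pool.Agent.Work.MP_27623f_ag.ColonPow
import Pool.Agent.Work.MP_27623f_ag.SocleR
import Pool.Agent.Work.MP_27623f_ag.Cofinal
import Pool.Agent.Work.MP_27623f_ag.Key

/-!
MP_27623f_ag / Final (helper30): assembly.
-/

set_option autoImplicit false

namespace Pool.Agent.FSig

open Filter Topology

universe u v w

theorem exists_pair {R : Type u} [CommRing R] [IsNoetherianRing R] [IsLocalRing R] (p : ℕ)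
    [Fact p.Prime] [CharP R p] (hF : (frobenius R p).Finite)
    (hR : IsLocalRing.maximalIdeal R ≠ ⊥) {S : Type v} [CommRing S] [IsNoetherianRing S]
    [Algebra R S] {G : Type w} [AddCommGroup G] [DecidableEq G] (𝒜 : G → Submodule R S)
    [GradedAlgebra 𝒜] {n : ℕ} (x : Fin n → S) (δ : Fin n → G) (v : S) (d : G)
    (h : GorCover R 𝒜 x δ v d) :
    ∃ I J : Ideal R, I < J ∧ J ≠ ⊤ ∧ (∃ N, IsLocalRing.maximalIdeal R ^ N ≤ I) ∧
      ∀ e : ℕ, rootDegree (IsLocalRing.ResidueField R) (p ^ e) * colen (frobPow I (p ^ e)) =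
        rootDegree (IsLocalRing.ResidueField R) (p ^ e) * colen (frobPow J (p ^ e)) +
          freeRank R (RootMod R p e) := by
  classical
  have hP := fun (a : Fin n → ℕ) (i : Fin n) (T : Finset (Fin n)) (hi : i ∉ T) (c : ℕ) (s : S)
    hs => reg_pow x h.reg a i T hi c s hs
  have hprod := fun (κ b : Fin n → ℕ) (s : S) hs => colon_prod x hP κ b s hs
  have hmax := fun (κ : Fin n → ℕ) (s : S) hs => colon_max x hP κ s hs
  -- the family
  let ι := {κ : Fin n → ℕ // d + ∑ i, κ i • δ i = 0}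
  have hex : ∀ t : ι, ∃ w : R, algebraMap R S w = v * ∏ i, x i ^ t.1 i :=
    fun t => exists_elt h t.1 t.2
  choose W hW using hex
  let I : ι → Ideal R := fun t => (powId x (fun i => t.1 i + 1)).comap (algebraMap R S)
  have hprim : ∀ t, ∃ N, IsLocalRing.maximalIdeal R ^ N ≤ I t := fun t => primary_comap h _
  have hw : ∀ t, W t ∉ I t := by
    intro t ht
    have h1 : algebraMap R S (W t) ∈ powId x (fun i => t.1 i + 1) := ht
    rw [hW] at h1
    exact socle_not_mem h hprod t.1 h1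
  have hsoc : ∀ t, ∀ a, a ∉ I t → ∃ b, b * a - W t ∈ I t :=
    fun t a ha => socle_R h hmax t.1 (W t) (hW t) a ha
  have hcof : ∀ N, ∃ t, I t ≤ IsLocalRing.maximalIdeal R ^ N := by
    intro N
    obtain ⟨M, hM⟩ := cofinal h N
    obtain ⟨κ, hκ, hκ'⟩ := h.bal M
    exact ⟨⟨κ, hκ'⟩, hM κ hκ⟩
  -- the base point
  obtain ⟨N0, hN0⟩ := exists_N0 h
  obtain ⟨M2, hM2⟩ := cofinal h 2
  obtain ⟨lam, hlam, hlam'⟩ := h.bal (max N0 M2)
  let t0 : ι := ⟨lam, hlam'⟩
  have hI2 : I t0 ≤ IsLocalRing.maximalIdeal R ^ 2 :=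
    hM2 lam (fun i => (le_max_right _ _).trans (hlam i))
  have hwm : W t0 ∈ IsLocalRing.maximalIdeal R := by
    by_contra hu
    rw [IsLocalRing.mem_maximalIdeal, mem_nonunits_iff, not_not] at hu
    -- then `m ≤ I t0 ≤ m ^ 2`
    have h1 : IsLocalRing.maximalIdeal R ≤ I t0 := by
      intro a ha
      by_contra ha'
      obtain ⟨b, hb⟩ := hsoc t0 a ha'
      have h2 : b * a - W t0 ∈ IsLocalRing.maximalIdeal R :=
        (hI2.trans (Ideal.pow_le_self two_ne_zero)) hb
      have h3 : W t0 ∈ IsLocalRing.maximalIdeal R := by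
        have := Ideal.sub_mem _ (Ideal.mul_mem_left _ b ha) h2
        simpa using this
      exact (IsLocalRing.mem_maximalIdeal _).1 h3 hu
    have h2 : IsLocalRing.maximalIdeal R ≤
        IsLocalRing.maximalIdeal R • IsLocalRing.maximalIdeal R := by
      have := h1.trans hI2
      rwa [pow_two] at this
    exact hR (Submodule.eq_bot_of_le_smul_of_le_jacobson_bot _ _ (IsNoetherian.noetherian _) h2
      (IsLocalRing.maximalIdeal_le_jacobson _))
  refine ⟨I t0, I t0 ⊔ Ideal.span {W t0}, ?_, ?_, hprim t0, ?_⟩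
  · refine lt_of_le_of_ne le_sup_left (fun h1 => hw t0 ?_)
    rw [h1]
    exact Ideal.mem_sup_right (Ideal.mem_span_singleton_self _)
  · have h1 : I t0 ⊔ Ideal.span {W t0} ≤ IsLocalRing.maximalIdeal R :=
      sup_le (hI2.trans (Ideal.pow_le_self two_ne_zero))
        ((Ideal.span_singleton_le_iff_mem _).2 hwm)
    intro h2
    rw [h2] at h1
    exact (IsLocalRing.maximalIdeal.isMaximal R).ne_top (top_le_iff.1 h1)
  · intro e
    refine criterion p hF I W hprim hw hsoc hcof t0 e (fun t r hr => ?_)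
    exact key p e h hprod lam hlam' (fun i => hN0 lam
      (fun j => (le_max_left _ _).trans (hlam j)) i) t.1 (W t) (W t0) (hW t) (hW t0) r hr

end Pool.Agent.FSig
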