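import Pool.Agent.Work.MP_27623f_ag.Defs

/-!
MP_27623f_ag / Frob (size S-M).  Basic facts on Frobenius powers.

PROOFS.
`frobPow_eq_map`: both sides are spanned by the q-th powers of the elements of `I`
(`iterateFrobenius_def`, `Ideal.map`).
`frobPow_sup_span`: `Ideal.map_sup`, `Ideal.map_span`.
`frobPow_mono`, `pow_mem_frobPow`: clear.
`exists_pow_le_frobPow`: `m ≤ radical (frobPow I q)` since `x ∈ m` gives `x^n ∈ I`,
`x^(n q) ∈ frobPow I q`; `m` is finitely generated: `Ideal.exists_pow_le_of_le_radical_of_fg`.
`smul_mem_iff`: `I • ⊤` in `RootMod R p e` is spanned by the `a • x = a^q x`, i.e. it is the ideal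
`frobPow I q`.  (Two inclusions: `Submodule.smul_induction_on`, `Submodule.span_induction`.)
-/

set_option autoImplicit false

namespace Pool.Agent.FSig

universe u

variable {R : Type u} [CommRing R]

theorem pow_mem_frobPow {I : Ideal R} {a : R} (q : ℕ) (h : a ∈ I) : a ^ q ∈ frobPow I q :=
  Ideal.subset_span ⟨a, h, rfl⟩

theorem frobPow_mono {I J : Ideal R} (q : ℕ) (h : I ≤ J) : frobPow I q ≤ frobPow J q :=
  Ideal.span_mono (Set.image_mono h)

theorem frobPow_eq_map (p e : ℕ) [ExpChar R p] (I : Ideal R) :
    frobPow I (p ^ e) = I.map (iterateFrobenius R p e) := by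
  unfold frobPow Ideal.map
  congr 1

theorem frobPow_sup_span (p e : ℕ) [ExpChar R p] (I : Ideal R) (w : R) :
    frobPow (I ⊔ Ideal.span {w}) (p ^ e) = frobPow I (p ^ e) ⊔ Ideal.span {w ^ p ^ e} := by
  rw [frobPow_eq_map, frobPow_eq_map, Ideal.map_sup, Ideal.map_span, Set.image_singleton,
    iterateFrobenius_def]

theorem exists_pow_le_frobPow [IsNoetherianRing R] [IsLocalRing R] {I : Ideal R} (q : ℕ)
    (h : ∃ n, IsLocalRing.maximalIdeal R ^ n ≤ I) :
    ∃ n, IsLocalRing.maximalIdeal R ^ n ≤ frobPow I q := by
  obtain ⟨n, hn⟩ := h
  apply Ideal.exists_pow_le_of_le_radical_of_fg _ (IsNoetherian.noetherian _)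
  intro x hx
  refine ⟨n * q, ?_⟩
  rw [pow_mul]
  exact pow_mem_frobPow q (hn (Ideal.pow_mem_pow hx n))

theorem root_smul_def (p e : ℕ) [ExpChar R p] (w r : R) :
    w • toRoot p e r = toRoot p e (w ^ p ^ e * r) := rfl

theorem smul_mem_iff (p e : ℕ) [ExpChar R p] (I : Ideal R) (w r : R) :
    w • toRoot p e r ∈ (I • (⊤ : Submodule R (RootMod R p e))) ↔
      r * w ^ p ^ e ∈ frobPow I (p ^ e) := by
  have key : ∀ x : R, toRoot p e x ∈ (I • (⊤ : Submodule R (RootMod R p e))) ↔
      x ∈ frobPow I (p ^ e) := by
    intro x
    constructor
    · intro hx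
      have h2 : ∀ z : RootMod R p e, z ∈ (I • (⊤ : Submodule R (RootMod R p e))) →
          (show R from z) ∈ frobPow I (p ^ e) := by
        intro z hz
        refine Submodule.smul_induction_on hz ?_ ?_
        · intro a ha y _
          have : (show R from (a • y)) = (show R from y) * a ^ p ^ e := by
            rw [mul_comm]; rfl
          rw [this]
          exact Ideal.mul_mem_left _ _ (pow_mem_frobPow _ ha)
        · intro a b ha hb
          exact Ideal.add_mem _ ha hb
      exact h2 _ hx
    · intro hx
      refine Submodule.span_induction (p := fun x _ => toRoot p e x ∈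
        (I • (⊤ : Submodule R (RootMod R p e)))) ?_ ?_ ?_ ?_ hx
      · rintro _ ⟨a, ha, rfl⟩
        have h1 : toRoot p e (a ^ p ^ e) = a • toRoot p e (1 : R) := by
          rw [root_smul_def, mul_one]
        show toRoot p e (a ^ p ^ e) ∈ _
        rw [h1]
        exact Submodule.smul_mem_smul ha trivial
      · exact Submodule.zero_mem _
      · intro a b _ _ ha hb
        exact Submodule.add_mem _ ha hb
      · intro c a _ ha
        have h3 : ∀ z : RootMod R p e, z ∈ (I • (⊤ : Submodule R (RootMod R p e))) →
          toRoot p e (c * (show R from z)) ∈ (I • (⊤ : Submodule R (RootMod R p e))) := by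
          intro z hz
          refine Submodule.smul_induction_on hz ?_ ?_
          · intro b hb y _
            have : toRoot p e (c * (show R from (b • y))) =
                b • toRoot p e (c * (show R from y)) := by
              have e1 : (show R from (b • y)) = b ^ p ^ e * (show R from y) := rfl
              rw [root_smul_def, e1]
              congr 1
              ring
            rw [this]
            exact Submodule.smul_mem_smul hb trivial
          · intro y z hy hz
            have : toRoot p e (c * (show R from (y + z))) =
                toRoot p e (c * (show R from y)) + toRoot p e (c * (show R from z)) := by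
              have e1 : (show R from (y + z)) = (show R from y) + (show R from z) := rfl
              rw [e1, mul_add]; rfl
            rw [this]
            exact Submodule.add_mem _ hy hz
        exact h3 _ ha
  rw [root_smul_def, key, mul_comm]

end Pool.Agent.FSig
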