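import Pool.Agent.Work.MP_27623f_ag.Defs

/-!
MP_27623f_ag / SelfInj (size M).  An Artinian local ring with simple socle is self-injective.

PROOF of `baer`.  Let `k = B / m`.  Every `c ≠ 0` in the annihilator of `m` is a unit multiple of
`u` (`u = b c`, `b` is not in `m` because `m c = 0`), so `Hom_B(k, B)` (= annihilator of `m`) has
length `≤ 1`.  By induction on the length of a finite length module `N`
(`IsFiniteLength.rec` or induction on `Module.length`; take a simple submodule `K ≅ k`, the sequence
`Hom(N/K, B) → Hom(N, B) → Hom(K, B)` is exact on the left and in the middle)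
`length Hom(N, B) ≤ length N`.  For an ideal `I` of `B` the sequence
`0 → Hom(B/I, B) → Hom(B, B) = B → Hom(I, B)` is exact, so the image of `B` in `Hom(I, B)` has length
`≥ length B - length (B/I) = length I ≥ length Hom(I, B)`, everything finite, hence `B → Hom(I, B)`
is onto: Baer's criterion.
PROOF of `exists_map_eq_one`.  The map `B → N`, `b ↦ b • x`, is injective: a nonzero `a` in
its kernel has a multiple `b a = u` and `u • x ≠ 0`.  Extend the identity of `B` along it
(`Module.Baer.extension_property`).
-/

set_option autoImplicit false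

namespace Pool.Agent.FSig

universe u

theorem length_hom_simple {B : Type u} [CommRing B] [IsLocalRing B] (w : B)
    (hw : w ≠ 0) (hs : ∀ a : B, a ≠ 0 → ∃ b, b * a = w) (K : Type u) [AddCommGroup K] [Module B K]
    [IsSimpleModule B K] : Module.length B (K →ₗ[B] B) ≤ 1 := by
  rcases subsingleton_or_nontrivial (K →ₗ[B] B) with h | h
  · rw [Module.length_eq_zero]; exact zero_le_one
  · have kill : ∀ b ∈ IsLocalRing.maximalIdeal B, ∀ x : K, b • x = 0 := by
      intro b hb x
      by_contra hbx
      obtain ⟨c, hc⟩ := IsSimpleModule.toSpanSingleton_surjective B hbx x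
      have h1 : (1 - c * b) • x = 0 := by
        rw [LinearMap.toSpanSingleton_apply] at hc
        rw [sub_smul, one_smul, mul_smul, hc, sub_self]
      have h2 : IsUnit (1 - c * b) := by
        by_contra h3
        have h4 := (IsLocalRing.mem_maximalIdeal _).2 h3
        have h5 := Ideal.add_mem _ h4 (Ideal.mul_mem_left _ c hb)
        rw [sub_add_cancel] at h5
        exact (Ideal.ne_top_iff_one _).1 (IsLocalRing.maximalIdeal.isMaximal B).ne_top h5
      have h6 : x = 0 := (IsUnit.smul_eq_zero h2).1 h1
      exact hbx (by rw [h6, smul_zero])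
    have := IsSimpleModule.nontrivial B K
    obtain ⟨x, hx⟩ := exists_ne (0 : K)
    have hgen := IsSimpleModule.toSpanSingleton_surjective B hx
    have ext : ∀ f g : K →ₗ[B] B, f x = g x → f = g := by
      intro f g hfg
      apply LinearMap.ext
      intro y
      obtain ⟨b, hb⟩ := hgen y
      rw [← hb, LinearMap.toSpanSingleton_apply, map_smul, map_smul, hfg]
    have hsimple : IsSimpleModule B (K →ₗ[B] B) := by
      rw [isSimpleModule_iff_toSpanSingleton_surjective]
      refine ⟨h, fun f hf g => ?_⟩
      have hfx : f x ≠ 0 := fun h0 => hf (ext f 0 (by simpa using h0))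
      by_cases hgx : g x = 0
      · refine ⟨0, ?_⟩
        rw [map_zero]
        exact ext _ _ (by rw [hgx]; rfl)
      obtain ⟨b, hb⟩ := hs _ hfx
      obtain ⟨c, hc⟩ := hs _ hgx
      have hcu : IsUnit c := by
        by_contra h3
        have h4 := (IsLocalRing.mem_maximalIdeal _).2 h3
        apply hw
        rw [← hc, ← smul_eq_mul, ← map_smul, kill c h4 x, map_zero]
      obtain ⟨u, rfl⟩ := hcu
      refine ⟨↑u⁻¹ * b, ?_⟩
      apply ext
      rw [LinearMap.toSpanSingleton_apply, LinearMap.smul_apply, smul_eq_mul, mul_assoc, hb, ← hc,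
        ← mul_assoc, Units.inv_mul, one_mul]
    rw [Module.length_eq_one]

theorem length_hom_add_le {B : Type u} [CommRing B] {M : Type u} [AddCommGroup M] [Module B M]
    (N : Submodule B M) :
    Module.length B (M →ₗ[B] B) = Module.length B ((M ⧸ N) →ₗ[B] B) +
      Module.length B (LinearMap.range (LinearMap.lcomp B B N.subtype)) := by
  refine Module.length_eq_add_of_exact (LinearMap.lcomp B B N.mkQ)
    (LinearMap.lcomp B B N.subtype).rangeRestrict ?_ (LinearMap.surjective_rangeRestrict _) ?_
  · intro f g hfg
    apply LinearMap.ext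
    intro y
    obtain ⟨z, rfl⟩ := N.mkQ_surjective y
    exact LinearMap.congr_fun hfg z
  · intro f
    constructor
    · intro hf
      have h1 : ∀ x : N, f x = 0 := by
        intro x
        have := congrArg Subtype.val hf
        exact LinearMap.congr_fun this x
      refine ⟨N.liftQ f (fun x hx => h1 ⟨x, hx⟩), ?_⟩
      apply LinearMap.ext
      intro x
      rfl
    · rintro ⟨g, rfl⟩
      apply Subtype.ext
      apply LinearMap.ext
      intro x
      show g (N.mkQ x) = 0
      have : N.mkQ x = 0 := by
        rw [Submodule.mkQ_apply, Submodule.Quotient.mk_eq_zero]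
        exact x.2
      rw [this, map_zero]

theorem length_hom_le {B : Type u} [CommRing B] [IsLocalRing B] (w : B)
    (hw : w ≠ 0) (hs : ∀ a : B, a ≠ 0 → ∃ b, b * a = w) {M : Type u} [AddCommGroup M] [Module B M]
    (h : IsFiniteLength B M) : Module.length B (M →ₗ[B] B) ≤ Module.length B M := by
  induction h with
  | of_subsingleton => rw [Module.length_eq_zero]; exact zero_le
  | @of_simple_quotient M _ _ N _ _ ih =>
    rw [length_hom_add_le N]
    have h1 : Module.length B M = Module.length B N + Module.length B (M ⧸ N) :=
      Module.length_eq_add_of_exact N.subtype N.mkQ (Submodule.subtype_injective _)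
        (Submodule.mkQ_surjective _) (LinearMap.exact_subtype_mkQ N)
    rw [h1, add_comm, Module.length_eq_one B (M ⧸ N)]
    refine add_le_add ?_ (length_hom_simple w hw hs _)
    refine le_trans ?_ ih
    exact Module.length_le_of_injective (Submodule.subtype _) (Submodule.subtype_injective _)

theorem baer {B : Type u} [CommRing B] [IsArtinianRing B] [IsLocalRing B] (w : B)
    (hw : w ≠ 0) (hs : ∀ a : B, a ≠ 0 → ∃ b, b * a = w) : Module.Baer B B := by
  intro I g
  have hB : Module.length B (B →ₗ[B] B) = Module.length B B :=
    (LinearMap.ringLmapEquivSelf B B B).length_eq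
  have h1 := length_hom_add_le (B := B) (M := B) I
  have h2 : Module.length B B = Module.length B I + Module.length B (B ⧸ I) :=
    Module.length_eq_add_of_exact I.subtype I.mkQ (Submodule.subtype_injective _)
      (Submodule.mkQ_surjective _) (LinearMap.exact_subtype_mkQ I)
  have h3 : Module.length B ((B ⧸ I) →ₗ[B] B) ≤ Module.length B (B ⧸ I) :=
    length_hom_le w hw hs (Module.length_ne_top_iff.1 Module.length_ne_top)
  have h4 : Module.length B (I →ₗ[B] B) ≤ Module.length B I :=
    length_hom_le w hw hs (Module.length_ne_top_iff.1 Module.length_ne_top)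
  have hfin1 : Module.length B (B ⧸ I) ≠ ⊤ := Module.length_ne_top
  have hfin2 : Module.length B I ≠ ⊤ := Module.length_ne_top
  have h5 : Module.length B I ≤
      Module.length B (LinearMap.range (LinearMap.lcomp B B I.subtype)) := by
    have h6 : Module.length B I + Module.length B (B ⧸ I) ≤
        Module.length B (B ⧸ I) +
          Module.length B (LinearMap.range (LinearMap.lcomp B B I.subtype)) := by
      rw [← h2, ← hB, h1]
      exact add_le_add h3 le_rfl
    rw [add_comm (Module.length B (B ⧸ I))] at h6
    exact (ENat.add_le_add_iff_right hfin1).1 h6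
  have hfin3 : Module.length B (I →ₗ[B] B) ≠ ⊤ := ne_top_of_le_ne_top hfin2 h4
  have hfl : IsFiniteLength B (I →ₗ[B] B) := Module.length_ne_top_iff.1 hfin3
  have htop : LinearMap.range (LinearMap.lcomp B B I.subtype) = ⊤ := by
    by_contra hne
    obtain ⟨hn, ha⟩ := isFiniteLength_iff_isNoetherian_isArtinian.1 hfl
    have := Submodule.length_lt hne
    exact absurd (le_trans h4 h5) (not_le.2 this)
  have hg : g ∈ LinearMap.range (LinearMap.lcomp B B I.subtype) := by
    rw [htop]; trivial
  obtain ⟨g', hg'⟩ := hg
  exact ⟨g', fun x mem => LinearMap.congr_fun hg' ⟨x, mem⟩⟩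

theorem exists_map_eq_one {B : Type u} [CommRing B] [IsArtinianRing B] [IsLocalRing B] (w : B)
    (hw : w ≠ 0) (hs : ∀ a : B, a ≠ 0 → ∃ b, b * a = w) {N : Type u} [AddCommGroup N]
    [Module B N] (x : N) (hx : w • x ≠ 0) : ∃ ψ : N →ₗ[B] B, ψ x = 1 := by
  have hinj : Function.Injective (LinearMap.toSpanSingleton B N x) := by
    rw [injective_iff_map_eq_zero]
    intro a ha
    by_contra hne
    obtain ⟨b, hb⟩ := hs a hne
    apply hx
    rw [LinearMap.toSpanSingleton_apply] at ha
    rw [← hb, mul_smul, ha, smul_zero]
  obtain ⟨ψ, hψ⟩ := (baer w hw hs).extension_property (LinearMap.toSpanSingleton B N x) hinj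
    (LinearMap.id)
  refine ⟨ψ, ?_⟩
  have := LinearMap.congr_fun hψ 1
  simpa using this

end Pool.Agent.FSig
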