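import Pool.Agent.Work.MP_27623f_ag.Defs

/-!
MP_27623f_ag / SocleS (size M).  The socle of `S / (x_i^{κ_i + 1})` on homogeneous elements.

Hypotheses `hprod`, `hmax` = conclusions of `colon_prod`, `colon_max` of file ColonPow.
`socle_not_mem`, PROOF: `v ∏ x_i^{κ_i} ∈ powId x (κ + 1)` implies `v ∈ powId x 1 = (x)` by
`hprod` (`b = 1`), contradiction.
`socle_mult`, PROOF: `r` homogeneous of degree `g`, `r ∉ 𝔮 = powId x (κ+1)`.  All monomials `x^β` with
some `β_i > κ_i` lie in `𝔮`, so there is a monomial `x^β` with `x^β r ∉ 𝔮` and `∑ β_i` maximal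
(bounded by `∑ κ_i`).  Then `x_i x^β r ∈ 𝔮` for all `i`, so by `hmax`
`x^β r = w ∏ x_i^{κ_i} + (element of 𝔮)`.  All ideals here are homogeneous (spanned by homogeneous
elements: `Ideal.homogeneous_span`), `x^β r` and `∏ x_i^{κ_i}` are homogeneous, so `w` may be
replaced by a homogeneous component.  `w ∉ (x)` because otherwise `w ∏ x_i^{κ_i} ∈ 𝔮`.  By
`h.socle` `t w - v ∈ (x)`, so `t x^β r - v ∏ x_i^{κ_i} ∈ 𝔮` (again `x_i ∏ x_j^{κ_j} ∈ 𝔮`).
Answer: `t x^β`.
-/

set_option autoImplicit false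

namespace Pool.Agent.FSig

variable {R : Type*} [CommRing R] [IsLocalRing R] {S : Type*} [CommRing S] [Algebra R S]
  {G : Type*} [AddCommGroup G] [DecidableEq G] {𝒜 : G → Submodule R S} [GradedAlgebra 𝒜]
  {n : ℕ} {x : Fin n → S} {δ : Fin n → G} {v : S} {d : G}

private theorem prod_mem_powId (x : Fin n → S) (κ β : Fin n → ℕ) (i : Fin n) (hi : κ i < β i) (s : S) :
    s * ∏ j, x j ^ β j ∈ powId x (fun j => κ j + 1) := by
  have h1 : x i ^ (κ i + 1) ∈ powId x (fun j => κ j + 1) := Ideal.subset_span ⟨i, rfl⟩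
  have h2 : x i ^ (κ i + 1) ∣ s * ∏ j, x j ^ β j :=
    ((pow_dvd_pow (x i) (by omega : κ i + 1 ≤ β i)).trans
      (Finset.dvd_prod_of_mem (fun j => x j ^ β j) (Finset.mem_univ i))).mul_left s
  exact Ideal.mem_of_dvd _ h2 h1

private theorem span_mul_mem (x : Fin n → S) (κ : Fin n → ℕ) {s : S} (hs : s ∈ Ideal.span (Set.range x)) :
    s * ∏ j, x j ^ κ j ∈ powId x (fun j => κ j + 1) := by
  obtain ⟨c, rfl⟩ := Ideal.mem_span_range_iff_exists_fun.1 hs
  rw [Finset.sum_mul]
  refine Ideal.sum_mem _ fun i _ => ?_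
  have h1 : x i * ∏ j, x j ^ κ j = ∏ j, x j ^ (Function.update κ i (κ i + 1)) j := by
    rw [← Finset.mul_prod_erase Finset.univ (fun j => x j ^ κ j) (Finset.mem_univ i),
      ← Finset.mul_prod_erase Finset.univ (fun j => x j ^ (Function.update κ i (κ i + 1)) j)
        (Finset.mem_univ i), Function.update_self, pow_succ']
    rw [← mul_assoc]
    congr 1
    refine Finset.prod_congr rfl fun j hj => ?_
    rw [Function.update_of_ne (Finset.ne_of_mem_erase hj)]
  rw [mul_assoc, h1]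
  exact prod_mem_powId x κ _ i (by simp) _

private theorem prod_mem_grade (hx : ∀ i, x i ∈ 𝒜 (δ i)) (s : Finset (Fin n)) (a : Fin n → ℕ) :
    ∏ i ∈ s, x i ^ a i ∈ 𝒜 (∑ i ∈ s, a i • δ i) :=
  SetLike.prod_mem_graded 𝒜 (fun i => a i • δ i) (fun i => x i ^ a i)
    (fun i _ => SetLike.pow_mem_graded _ (hx i))

theorem socle_not_mem (h : GorCover R 𝒜 x δ v d)
    (hprod : ∀ (κ b : Fin n → ℕ) (s : S), s * ∏ i, x i ^ κ i ∈ powId x (fun i => κ i + b i) →
      s ∈ powId x b) (κ : Fin n → ℕ) :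
    v * ∏ i, x i ^ κ i ∉ powId x (fun i => κ i + 1) := by
  intro hv
  have h1 := hprod κ (fun _ => 1) v hv
  apply h.v_not_mem
  simpa [powId] using h1

theorem socle_mult (h : GorCover R 𝒜 x δ v d)
    (hmax : ∀ (κ : Fin n → ℕ) (s : S), (∀ i, x i * s ∈ powId x (fun j => κ j + 1)) →
      ∃ w : S, s - w * ∏ i, x i ^ κ i ∈ powId x (fun j => κ j + 1))
    (κ : Fin n → ℕ) (g : G) (r : S) (hr : r ∈ 𝒜 g) (hr' : r ∉ powId x (fun i => κ i + 1)) :
    ∃ t : S, t * r - v * ∏ i, x i ^ κ i ∈ powId x (fun i => κ i + 1) := by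
  classical
  set q := powId x (fun i => κ i + 1) with hq
  have hhom : q.IsHomogeneous 𝒜 := by
    apply Ideal.homogeneous_span
    rintro _ ⟨i, rfl⟩
    exact ⟨_, SetLike.pow_mem_graded _ (h.mem_x i)⟩
  -- a maximal monomial
  let F : Finset (Fin n → ℕ) :=
    (Fintype.piFinset fun i => Finset.range (κ i + 1)).filter fun β => r * ∏ j, x j ^ β j ∉ q
  have hF : F.Nonempty := by
    refine ⟨fun _ => 0, ?_⟩
    rw [Finset.mem_filter]
    exact ⟨by simp, by simpa using hr'⟩
  obtain ⟨β, hβ, hβm⟩ := Finset.exists_max_image F (fun β => ∑ i, β i) hF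
  rw [Finset.mem_filter, Fintype.mem_piFinset] at hβ
  obtain ⟨hβ1, hβ2⟩ := hβ
  have hxi : ∀ i, x i * (r * ∏ j, x j ^ β j) ∈ q := by
    intro i
    by_contra hcon
    have h1 : x i * (r * ∏ j, x j ^ β j) = r * ∏ j, x j ^ (Function.update β i (β i + 1)) j := by
      rw [← Finset.mul_prod_erase Finset.univ (fun j => x j ^ β j) (Finset.mem_univ i),
        ← Finset.mul_prod_erase Finset.univ (fun j => x j ^ (Function.update β i (β i + 1)) j)
          (Finset.mem_univ i), Function.update_self, pow_succ']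
      have : ∏ j ∈ Finset.univ.erase i, x j ^ (Function.update β i (β i + 1)) j =
          ∏ j ∈ Finset.univ.erase i, x j ^ β j := by
        refine Finset.prod_congr rfl fun j hj => ?_
        rw [Function.update_of_ne (Finset.ne_of_mem_erase hj)]
      rw [this]
      ring
    rw [h1] at hcon
    have h2 : Function.update β i (β i + 1) ∈ F := by
      rw [Finset.mem_filter, Fintype.mem_piFinset]
      refine ⟨fun j => ?_, hcon⟩
      rw [Finset.mem_range]
      by_cases hj : j = i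
      · subst hj
        by_contra hlt
        exact hcon (prod_mem_powId x κ _ j (by rw [Function.update_self] at hlt ⊢; omega) r)
      · rw [Function.update_of_ne hj]
        exact Finset.mem_range.1 (hβ1 j)
    have h3 := hβm _ h2
    have h4 : ∑ j, (Function.update β i (β i + 1)) j = (∑ j, β j) + 1 := by
      rw [← Finset.add_sum_erase Finset.univ (fun j => (Function.update β i (β i + 1)) j)
        (Finset.mem_univ i), ← Finset.add_sum_erase Finset.univ β (Finset.mem_univ i),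
        Function.update_self]
      have : ∑ j ∈ Finset.univ.erase i, (Function.update β i (β i + 1)) j =
          ∑ j ∈ Finset.univ.erase i, β j := by
        refine Finset.sum_congr rfl fun j hj => ?_
        rw [Function.update_of_ne (Finset.ne_of_mem_erase hj)]
      rw [this]
      ring
    omega
  obtain ⟨w, hw⟩ := hmax κ _ hxi
  -- the homogeneous component
  have hm1 : r * ∏ j, x j ^ β j ∈ 𝒜 (g + ∑ i, β i • δ i) :=
    SetLike.mul_mem_graded hr (prod_mem_grade h.mem_x _ β)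
  have hm2 : ∏ j, x j ^ κ j ∈ 𝒜 (∑ i, κ i • δ i) := prod_mem_grade h.mem_x _ κ
  set m := g + ∑ i, β i • δ i with hm
  set γ := ∑ i, κ i • δ i with hγ
  set w' : S := (DirectSum.decompose 𝒜 w (m - γ) : S) with hw'
  have hw'm : w' ∈ 𝒜 (m - γ) := SetLike.coe_mem _
  have hcomp : r * ∏ j, x j ^ β j - w' * ∏ j, x j ^ κ j ∈ q := by
    have h1 := hhom m hw
    have h2 : ((DirectSum.decompose 𝒜 (r * ∏ j, x j ^ β j - w * ∏ i, x i ^ κ i) m : 𝒜 m) : S) =
        r * ∏ j, x j ^ β j - w' * ∏ j, x j ^ κ j := by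
      rw [← GradedRing.proj_apply, map_sub, GradedRing.proj_apply, GradedRing.proj_apply,
        DirectSum.decompose_of_mem_same _ hm1]
      congr 1
      have h3 : m = (m - γ) + γ := by abel
      rw [hw']
      conv_lhs => rw [h3]
      exact DirectSum.coe_decompose_mul_add_of_right_mem 𝒜 hm2
    rw [h2] at h1
    exact h1
  have hwn : w' ∉ Ideal.span (Set.range x) := by
    intro hcon
    have h1 := q.add_mem hcomp (span_mul_mem x κ hcon)
    rw [sub_add_cancel] at h1
    exact hβ2 h1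
  obtain ⟨t, ht⟩ := h.socle _ w' hw'm hwn
  refine ⟨t * ∏ j, x j ^ β j, ?_⟩
  have h1 := q.add_mem (q.mul_mem_left t hcomp) (span_mul_mem x κ ht)
  have h2 : t * (r * ∏ j, x j ^ β j - w' * ∏ j, x j ^ κ j) + (t * w' - v) * ∏ j, x j ^ κ j =
      t * (∏ j, x j ^ β j) * r - v * ∏ i, x i ^ κ i := by ring
  rw [h2] at h1
  exact h1

end Pool.Agent.FSig
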